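import Pool.Agent.Work.MP_2f1fa1_lc.PNP
import Pool.Agent.Work.MP_2f1fa1_lc.PTab

/-!
# PARTITION: definitions

`nums n m c` is the list of numbers of the reduction from the satisfiability problem of the table
`c` (`2 n` literals, `m` clauses) to PARTITION; the base is `2 ^ (n + 2) > 4 n`.
-/

namespace PTime

/-- yes-instances of PARTITION: with suitable signs the sum is zero -/
def Partition (l : List ℤ) : Prop :=
  ∃ e : ℕ → Bool, ∑ i ∈ Finset.range l.length, (if e i = true then l.getD i 0 else -l.getD i 0) = 0

/-- `2 ^ ((n + 2) * i)`, the `i`-th power of the base -/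
def bp (n i : ℕ) : ℤ := 2 ^ ((n + 2) * i)

/-- the number of the literal `r` -/
def litN (n m : ℕ) (c : ℕ → ℕ → Bool) (r : ℕ) : ℤ :=
  bp n (m + r / 2) + ((List.range m).map fun j => if c r j = true then bp n j else 0).sum

/-- number of literals of the clause `j` -/
def cnt (n : ℕ) (c : ℕ → ℕ → Bool) (j : ℕ) : ℕ := ((List.range (2 * n)).filter fun r => c r j).length

/-- the last number -/
def extraN (n m : ℕ) (c : ℕ → ℕ → Bool) : ℤ :=
  ((List.range m).map fun j => (((2 * n + 1 - cnt n c j : ℕ) : ℤ)) * bp n j).sum

/-- the numbers -/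
def nums (n m : ℕ) (c : ℕ → ℕ → Bool) : List ℤ :=
  (List.range (2 * n)).map (litN n m c) ++
    ((List.range m).flatMap fun j => (List.range (2 * n - 1)).map fun _ => bp n j) ++
    [extraN n m c]

/-- the reduction from SAT to PARTITION -/
def partR (φ : CNF) : List ℤ := nums (nV φ) (nC φ) (occ φ)

end PTime
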