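import Pool.Agent.Work.MP_aff8ab_lc.P.Glue
import Pool.Agent.Work.MP_aff8ab_lc.NP.Coord

/-! The coded instance describes the chains of the reduction. -/

namespace Pool.Agent.MP_aff8ab_lc.P

open PTime Finset

theorem take_sum {l : List ℤ} (h : ∀ a ∈ l, 0 < a) : ∀ i ≤ l.length,
    (l.take i).sum = ((∑ j ∈ range i, natSeq l j : ℕ) : ℤ) := by
  intro i
  induction i with
  | zero => intro _; simp
  | succ i ih =>
    intro hi
    have hi' : i < l.length := hi
    rw [List.take_succ_eq_append_getElem hi', List.sum_append, ih (by omega), sum_range_succ]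
    have h1 : natSeq l i = (l[i]).toNat := by
      rw [natSeq, List.getD_eq_getElem?_getD, List.getElem?_eq_getElem hi']
      rfl
    have h2 := h _ (List.getElem_mem hi')
    rw [h1]
    simp
    omega

theorem sum_eq_SS {l : List ℤ} (h : ∀ a ∈ l, 0 < a) :
    l.sum = (NP.SS l.length (natSeq l) : ℤ) := by
  have := take_sum h l.length le_rfl
  rw [List.take_length] at this
  exact this

theorem instM_eq {l : List ℤ} (h : ∀ a ∈ l, 0 < a) :
    CL.instM l = (NP.MM l.length (natSeq l) : ℤ) := by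
  unfold CL.instM NP.MM
  rw [sum_eq_SS h]
  push_cast
  ring

/-- The vertices of the open chain, as fractions. -/
def vtx (l : List ℤ) (j : ℕ) : PtZ :=
  ((((NP.chX l.length (natSeq l) j : ℕ) : ℤ), ((NP.UU l.length (natSeq l) : ℕ) : ℤ)),
    (((NP.chY l.length (natSeq l) j : ℕ) : ℤ), ((NP.UU l.length (natSeq l) : ℕ) : ℤ)))

theorem instA_eq {l : List ℤ} (h : ∀ a ∈ l, 0 < a) (h0 : l ≠ []) :
    CL.instA l = (List.range (l.length + 7)).map (vtx l) := by
  have hn : 0 < l.length := List.length_pos_iff.2 h0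
  have hpos := natSeq_pos h
  have hM := NP.MM_ge hn hpos
  have hsq : 160 ^ 2 ≤ NP.MM l.length (natSeq l) ^ 2 := Nat.pow_le_pow_left hM 2
  have hU : ((NP.UU l.length (natSeq l) : ℕ) : ℤ) = 5120 * CL.instM l ^ 2 := by
    rw [instM_eq h, NP.UU]
    push_cast
    ring
  have hX1 : ∀ j ≤ 1, ((NP.chX l.length (natSeq l) j : ℕ) : ℤ) = 5120 * CL.instM l ^ 2 - 5 := by
    intro j hj
    rw [NP.chX_le_one hj, Nat.cast_sub (by omega), instM_eq h]
    push_cast
    ring
  have hX2 : ∀ j, 2 ≤ j →
      ((NP.chX l.length (natSeq l) j : ℕ) : ℤ) = 2048 * CL.instM l ^ 2 + 7 := by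
    intro j hj
    rw [NP.chX_two_le hj, instM_eq h]
    push_cast
    ring
  have e0 : vtx l 0 = CL.mkPt (5120 * CL.instM l ^ 2) (5120 * CL.instM l ^ 2 - 5)
      (20480 * CL.instM l ^ 3 + 7680 * CL.instM l ^ 2 + 640 * CL.instM l + 56) := by
    unfold vtx CL.mkPt
    rw [hU, hX1 0 (by omega), NP.chY_zero hM, instM_eq h]
    push_cast
    rfl
  have e1 : vtx l 1 = CL.mkPt (5120 * CL.instM l ^ 2) (5120 * CL.instM l ^ 2 - 5)
      (7680 * CL.instM l ^ 2 + 640 * CL.instM l + 56) := by
    unfold vtx CL.mkPt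
    rw [hU, hX1 1 (by omega), NP.chY_one hM, instM_eq h]
    push_cast
    rfl
  have e2 : vtx l 2 = CL.mkPt (5120 * CL.instM l ^ 2) (2048 * CL.instM l ^ 2 + 7)
      (11776 * CL.instM l ^ 2 + 640 * CL.instM l + 40) := by
    unfold vtx CL.mkPt
    rw [hU, hX2 2 (by omega), NP.chY_two, instM_eq h]
    push_cast
    rfl
  have e3 : vtx l 3 = CL.mkPt (5120 * CL.instM l ^ 2) (2048 * CL.instM l ^ 2 + 7)
      (6656 * CL.instM l ^ 2 + 640 * CL.instM l + 20) := by
    unfold vtx CL.mkPt
    rw [hU, hX2 3 (by omega), NP.chY_three, instM_eq h]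
    push_cast
    rfl
  have e4 : ∀ i ≤ l.length, vtx l (4 + i) = CL.mkPt (5120 * CL.instM l ^ 2)
      (2048 * CL.instM l ^ 2 + 7) (6144 * CL.instM l ^ 2 + 640 * CL.instM l + 20 -
        819200 * l.sum * ((l.length : ℤ) + 3) ^ 2 * (l.take i).sum) := by
    intro i hi
    have h1 := NP.hgt_mid_add (a := natSeq l) hi
    have h2 : NP.chY l.length (natSeq l) (4 + i) = NP.hgt l.length (natSeq l) (4 + i) := by
      rw [NP.chY, if_neg (by omega), if_neg (by omega)]
    rw [NP.hgt_four] at h1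
    unfold vtx CL.mkPt
    rw [hU, hX2 (4 + i) (by omega), h2, take_sum h i hi, sum_eq_SS h, instM_eq h]
    have h3 : ((NP.hgt l.length (natSeq l) (4 + i) : ℕ) : ℤ) +
        ((NP.CC l.length (natSeq l) * ∑ j ∈ range i, natSeq l j : ℕ) : ℤ) =
        6144 * (NP.MM l.length (natSeq l) : ℤ) ^ 2 + 640 * (NP.MM l.length (natSeq l) : ℤ) + 20 := by
      exact_mod_cast h1
    have h4 : ((NP.CC l.length (natSeq l) * ∑ j ∈ range i, natSeq l j : ℕ) : ℤ) =
        819200 * (NP.SS l.length (natSeq l) : ℤ) * ((l.length : ℤ) + 3) ^ 2 *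
          ((∑ j ∈ range i, natSeq l j : ℕ) : ℤ) := by
      unfold NP.CC
      push_cast
      ring
    have h5 : ((NP.hgt l.length (natSeq l) (4 + i) : ℕ) : ℤ) =
        6144 * (NP.MM l.length (natSeq l) : ℤ) ^ 2 + 640 * (NP.MM l.length (natSeq l) : ℤ) + 20 -
        819200 * (NP.SS l.length (natSeq l) : ℤ) * ((l.length : ℤ) + 3) ^ 2 *
          ((∑ j ∈ range i, natSeq l j : ℕ) : ℤ) := by
      rw [← h4]
      linarith
    rw [h5]
  have e5 : vtx l (l.length + 5) = CL.mkPt (5120 * CL.instM l ^ 2) (2048 * CL.instM l ^ 2 + 7)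
      (5120 * CL.instM l ^ 2 + 640 * CL.instM l + 20) := by
    unfold vtx CL.mkPt
    rw [hU, hX2 _ (by omega), NP.chY_five, instM_eq h]
    push_cast
    rfl
  have e6 : vtx l (l.length + 6) = CL.mkPt (5120 * CL.instM l ^ 2) (2048 * CL.instM l ^ 2 + 7)
      (640 * CL.instM l) := by
    unfold vtx CL.mkPt
    rw [hU, hX2 _ (by omega), NP.chY_six, instM_eq h]
    push_cast
    rfl
  rw [show l.length + 7 = 4 + (l.length + 1) + 2 by ring, List.range_add, List.range_add,
    List.map_append, List.map_append, List.map_map, List.map_map]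
  unfold CL.instA
  congr 1
  · congr 1
    · show _ = [vtx l 0, vtx l 1, vtx l 2, vtx l 3]
      rw [e0, e1, e2, e3]
    · refine List.map_congr_left fun i hi => ?_
      rw [List.mem_range] at hi
      exact (e4 i (by omega)).symm
  · show _ = [vtx l (4 + (l.length + 1) + 0), vtx l (4 + (l.length + 1) + 1)]
    rw [show 4 + (l.length + 1) + 0 = l.length + 5 by ring,
      show 4 + (l.length + 1) + 1 = l.length + 6 by ring, e5, e6]

/-- The coded instance describes the chains of the reduction. -/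
theorem describes (l : List ℤ) (h : ∀ a ∈ l, 0 < a) (h0 : l ≠ []) :
    Describes (instOfZ (CL.instNU l))
      (NP.thin (256 * NP.MM l.length (natSeq l))) (NP.chain l.length (natSeq l)) := by
  have hn : 0 < l.length := List.length_pos_iff.2 h0
  have hpos := natSeq_pos h
  have hM := NP.MM_ge hn hpos
  have hU : NP.UU l.length (natSeq l) ≠ 0 := by
    unfold NP.UU
    positivity
  refine ⟨?_, ?_, ?_⟩
  · intro p hp
    rw [List.mem_append] at hp
    rcases hp with hp | hp
    · simp only [instOfZ, CL.instNU, CL.instC, List.map_cons, List.map_nil, List.mem_cons,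
        List.not_mem_nil, or_false, ofZ] at hp
      rcases hp with rfl | rfl | rfl <;> simp
    · have hp' : p ∈ (CL.instA l).map ofZ := hp
      rw [instA_eq h h0, List.map_map, List.mem_map] at hp'
      obtain ⟨j, -, rfl⟩ := hp'
      simp only [Function.comp_apply, vtx, ofZ, Int.natAbs_natCast]
      exact ⟨hU, hU⟩
  · have e : List.ofFn (NP.thin (256 * (NP.MM l.length (natSeq l) : ℝ))) =
        [0, 1, ⟨1, 256 * (NP.MM l.length (natSeq l) : ℝ)⟩] := by
      simp [NP.thin, List.ofFn_succ]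
    rw [e]
    show [toC (ofZ ((0, 1), (0, 1))), toC (ofZ ((1, 1), (0, 1))),
      toC (ofZ ((1, 1), (256 * CL.instM l, 1)))] = _
    rw [instM_eq h]
    congr 1
    · apply Complex.ext <;> simp [toC, ofZ]
    congr 1
    · apply Complex.ext <;> simp [toC, ofZ]
    congr 1
    apply Complex.ext <;> simp [toC, ofZ]
  · show ((CL.instA l).map ofZ).map toC = _
    rw [instA_eq h h0, List.map_map, List.map_map]
    refine List.ext_getElem (by simp) fun j h1 h2 => ?_
    rw [List.getElem_map, List.getElem_range, List.getElem_ofFn]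
    simp only [Function.comp_apply, vtx, ofZ, toC, NP.chain, Int.natAbs_natCast, Int.cast_natCast]

/-- The decision problem NESTED-UNLOCK is NP-hard. -/
theorem machine
    (hE : ∀ (n : ℕ) (a : ℕ → ℕ), 0 < n → (∀ i < n, 0 < a i) →
      IsInput (NP.thin (256 * NP.MM n a)) (NP.chain n a) ∧
      (CanStraighten (NP.thin (256 * NP.MM n a)) (NP.chain n a) ↔
        ∃ T ⊆ range n, ∑ i ∈ T, a i = ∑ i ∈ range n \ T, a i))
    (L : Set (List Bool)) (hL : InNP L) :
    ∃ f : List Bool → Inst,
      Nonempty (Turing.TM2ComputableInPolyTime (fun x : List Bool => x) encInst f) ∧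
      ∀ x, Valid (f x) ∧ (x ∈ L ↔ Yes (f x)) :=
  machine_of hE describes L hL

end Pool.Agent.MP_aff8ab_lc.P
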