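import Pool.Agent.Work.MP_2f1fa1_lc.PRaw

/-!
# Instances of NESTED-UNLOCK as bit strings

A rational number is given by a numerator and a denominator (an integer and a natural number, in
binary, the fraction need not be reduced), a point by two rational numbers, a chain by the list of
its vertices, an instance by the closed chain and the open chain.
-/

namespace Pool.Agent.MP_aff8ab_lc.P

open PTime

/-- A point with rational coordinates: `((a, b), (c, d))` is the point `(a / b, c / d)`. -/
abbrev Pt : Type := (ℤ × ℕ) × (ℤ × ℕ)

/-- An instance: the vertices of the closed chain and the vertices of the open chain. -/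
abbrev Inst : Type := List Pt × List Pt

/-- The point of the plane with these coordinates. -/
noncomputable def toC (p : Pt) : ℂ := ⟨(p.1.1 : ℝ) / p.1.2, (p.2.1 : ℝ) / p.2.2⟩

/-- A natural number in binary (least significant digit first): every digit is preceded by
`true`, the end is marked by `false`. -/
def encNat (n : ℕ) : List Bool := n.bits.flatMap (fun b => [true, b]) ++ [false]

/-- An integer: the sign, then the absolute value in binary. -/
def encInt (z : ℤ) : List Bool := decide (z < 0) :: encNat z.natAbs

/-- A fraction: numerator, then denominator. -/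
def encFrac (r : ℤ × ℕ) : List Bool := encInt r.1 ++ encNat r.2

/-- A point: first coordinate, then second coordinate. -/
def encPt (p : Pt) : List Bool := encFrac p.1 ++ encFrac p.2

/-- A list of points: every point is preceded by `true`, the end is marked by `false`. -/
def encPts (l : List Pt) : List Bool := l.flatMap (fun p => true :: encPt p) ++ [false]

/-- The encoding of an instance as a string of bits. -/
def encInst (I : Inst) : List Bool := encPts I.1 ++ encPts I.2

/-! ### instances with integer denominators, as computed in the framework `PT` -/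

/-- A point, the denominators as integers. -/
abbrev PtZ : Type := (ℤ × ℤ) × (ℤ × ℤ)

/-- An instance, the denominators as integers. -/
abbrev InstZ : Type := List PtZ × List PtZ

/-- absolute values of the denominators -/
def ofZ (p : PtZ) : Pt := ((p.1.1, p.1.2.natAbs), (p.2.1, p.2.2.natAbs))

/-- absolute values of the denominators -/
def instOfZ (I : InstZ) : Inst := (I.1.map ofZ, I.2.map ofZ)

variable {α β γ : Type} [Code α] [Code β] [Code γ]

theorem ptTagged {l : α → List Bool} (hl : PT l) :
    PT (fun a => (l a).flatMap (fun b => [true, b]) ++ [false]) :=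
  (PT.flatMap (g := fun x : α × Bool => [true, x.2]) hl
    ((PT.const true).cons (PT.snd.cons (PT.const [])))).append (PT.const [false])

theorem ptEncAbs {z : α → ℤ} (hz : PT z) : PT (fun a => encNat (z a).natAbs) := by
  have h : PT (fun a => (decide (z a < 0), (z a).natAbs.bits)) := PT.recode2 hz fun _ => rfl
  exact ptTagged (PT.snd.comp h)

theorem ptEncInt {z : α → ℤ} (hz : PT z) : PT (fun a => encInt (z a)) := by
  have h : PT (fun a => (decide (z a < 0), (z a).natAbs.bits)) := PT.recode2 hz fun _ => rfl
  exact (PT.fst.comp h).cons (ptTagged (PT.snd.comp h))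

theorem ptEncPt {p : α → PtZ} (hp : PT p) : PT (fun a => encPt (ofZ (p a))) :=
  ((ptEncInt hp.fst'.fst').append (ptEncAbs hp.fst'.snd')).append
    ((ptEncInt hp.snd'.fst').append (ptEncAbs hp.snd'.snd'))

theorem ptEncPts {l : α → List PtZ} (hl : PT l) : PT (fun a => encPts ((l a).map ofZ)) := by
  have h := (PT.flatMap (g := fun x : α × PtZ => true :: encPt (ofZ x.2)) hl
    ((PT.const true).cons (ptEncPt PT.snd))).append (PT.const [false])
  refine h.congr fun a => ?_
  unfold encPts
  rw [List.flatMap_map]

theorem ptEncInst {I : α → InstZ} (hI : PT I) : PT (fun a => encInst (instOfZ (I a))) :=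
  (ptEncPts hI.fst').append (ptEncPts hI.snd')

/-- A polynomial time map to instances is computed by one of Mathlib's polynomial time machines,
with the literal encoding of instances. -/
theorem inst_machine {f : List Bool → InstZ} (hf : PT f) :
    Nonempty (Turing.TM2ComputableInPolyTime (fun x : List Bool => x) encInst
      (fun x => instOfZ (f x))) :=
  PT.compileOut (ptEncInst hf)

/-! ### the encoding is injective -/

theorem encNat_inj : ∀ {m n : ℕ} {r s : List Bool}, encNat m ++ r = encNat n ++ s →
    m = n ∧ r = s := by
  have key : ∀ (l l' r s : List Bool), l.flatMap (fun b => [true, b]) ++ false :: r =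
      l'.flatMap (fun b => [true, b]) ++ false :: s → l = l' ∧ r = s := by
    intro l
    induction l with
    | nil =>
      intro l' r s h
      cases l' with
      | nil => simpa using h
      | cons b l' => simp at h
    | cons b l ih =>
      intro l' r s h
      cases l' with
      | nil => simp at h
      | cons b' l' =>
        simp only [List.flatMap_cons, List.cons_append, List.nil_append, List.cons.injEq,
          true_and] at h
        obtain ⟨rfl, h⟩ := h
        obtain ⟨rfl, rfl⟩ := ih l' r s h
        exact ⟨rfl, rfl⟩
  intro m n r s h
  unfold encNat at h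
  rw [List.append_assoc, List.append_assoc] at h
  obtain ⟨h1, h2⟩ := key _ _ _ _ h
  exact ⟨bits_inj h1, h2⟩

theorem encInt_inj {m n : ℤ} {r s : List Bool} (h : encInt m ++ r = encInt n ++ s) :
    m = n ∧ r = s := by
  unfold encInt at h
  rw [List.cons_append, List.cons_append, List.cons.injEq] at h
  obtain ⟨h1, h2⟩ := encNat_inj h.2
  have h3 : (m < 0) ↔ (n < 0) := by simpa using h.1
  exact ⟨by omega, h2⟩

theorem encFrac_inj {p q : ℤ × ℕ} {r s : List Bool} (h : encFrac p ++ r = encFrac q ++ s) :
    p = q ∧ r = s := by
  unfold encFrac at h
  rw [List.append_assoc, List.append_assoc] at h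
  obtain ⟨h1, h2⟩ := encInt_inj h
  obtain ⟨h3, h4⟩ := encNat_inj h2
  exact ⟨Prod.ext h1 h3, h4⟩

theorem encPt_inj {p q : Pt} {r s : List Bool} (h : encPt p ++ r = encPt q ++ s) :
    p = q ∧ r = s := by
  unfold encPt at h
  rw [List.append_assoc, List.append_assoc] at h
  obtain ⟨h1, h2⟩ := encFrac_inj h
  obtain ⟨h3, h4⟩ := encFrac_inj h2
  exact ⟨Prod.ext h1 h3, h4⟩

theorem encPts_inj : ∀ {l l' : List Pt} {r s : List Bool}, encPts l ++ r = encPts l' ++ s →
    l = l' ∧ r = s := by
  intro l
  induction l with
  | nil =>
    intro l' r s h
    cases l' with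
    | nil => simpa [encPts] using h
    | cons b l' => simp [encPts] at h
  | cons p l ih =>
    intro l' r s h
    cases l' with
    | nil => simp [encPts] at h
    | cons p' l' =>
      have e : ∀ (q : Pt) (m : List Pt) (t : List Bool),
          encPts (q :: m) ++ t = true :: (encPt q ++ (encPts m ++ t)) := by
        intro q m t
        simp [encPts]
      rw [e, e, List.cons.injEq] at h
      obtain ⟨rfl, h2⟩ := encPt_inj h.2
      obtain ⟨rfl, rfl⟩ := ih h2
      exact ⟨rfl, rfl⟩

theorem encInst_injective : Function.Injective encInst := by
  intro I J h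
  unfold encInst at h
  obtain ⟨h1, h2⟩ := encPts_inj h
  obtain ⟨h3, -⟩ := encPts_inj (l := I.2) (l' := J.2) (r := []) (s := []) (by rw [h2])
  exact Prod.ext h1 h3

end Pool.Agent.MP_aff8ab_lc.P
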