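import Pool.Agent.Work.MP_aff8ab_lc.P.Describe
import Pool.Agent.Work.MP_aff8ab_lc.NP.Main

/-! NESTED-UNLOCK is NP-hard, already when the closed chain is a triangle. -/

namespace Pool.Agent.MP_aff8ab_lc.P

open PTime

/-- NESTED-UNLOCK is NP-hard, already when the closed chain is a triangle. -/
theorem np_hard_tri (L : Set (List Bool)) (hL : InNP L) : ∃ f : List Bool → Inst,
    Nonempty (Turing.TM2ComputableInPolyTime (fun x : List Bool => x) encInst f) ∧
    ∀ x, Valid (f x) ∧ (f x).1.length = 3 ∧ (x ∈ L ↔ Yes (f x)) := by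
  obtain ⟨g, hg, hx, hpos⟩ := CL.part_hard hL
  refine ⟨fun x => instOfZ (CL.instNU (g x)), inst_machine (CL.pt_instNU hg), fun x => ?_⟩
  obtain ⟨h1, h2⟩ := hpos x
  have hn : 0 < (g x).length := List.length_pos_iff.2 h2
  obtain ⟨hin, hiff⟩ := NP.main_iff (g x).length (natSeq (g x)) hn (natSeq_pos h1)
  have hd := describes (g x) h1 h2
  refine ⟨valid_of hd hin (chain_ne hn (natSeq_pos h1)), rfl, ?_⟩
  rw [yes_iff hd hin (chain_ne hn (natSeq_pos h1)), hiff, hx x, CL.signed_iff_subset _ h1]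
  rfl

/-- NESTED-UNLOCK is NP-hard. -/
theorem np_hard (L : Set (List Bool)) (hL : InNP L) : ∃ f : List Bool → Inst,
    Nonempty (Turing.TM2ComputableInPolyTime (fun x : List Bool => x) encInst f) ∧
    ∀ x, Valid (f x) ∧ (x ∈ L ↔ Yes (f x)) := by
  obtain ⟨f, h1, h2⟩ := np_hard_tri L hL
  exact ⟨f, h1, fun x => ⟨(h2 x).1, (h2 x).2.2⟩⟩

end Pool.Agent.MP_aff8ab_lc.P
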