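import Pool.Agent.Work.MP_aff8ab_lc.P.PBin

/-! The instance map from lists of integers to nested chains, in polynomial time. -/

namespace Pool.Agent.MP_aff8ab_lc.CL

open PTime

/-- a point of the plane with rational coordinates: numerator and denominator of the abscissa,
numerator and denominator of the ordinate -/
abbrev Pt : Type := (ℤ × ℤ) × (ℤ × ℤ)

/-- the main parameter of the instance -/
def instM (a : List ℤ) : ℤ := 40 * a.sum * ((a.length : ℤ) + 3)

/-- the point `(X / U, Y / U)` -/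
def mkPt (U X Y : ℤ) : Pt := ((X, U), (Y, U))

/-- the vertices of the closed chain -/
def instC (a : List ℤ) : List Pt :=
  [((0, 1), (0, 1)), ((1, 1), (0, 1)), ((1, 1), (256 * instM a, 1))]

/-- the vertices of the open chain -/
def instA (a : List ℤ) : List Pt :=
  [mkPt (5120 * instM a ^ 2) (5120 * instM a ^ 2 - 5)
      (20480 * instM a ^ 3 + 7680 * instM a ^ 2 + 640 * instM a + 56),
    mkPt (5120 * instM a ^ 2) (5120 * instM a ^ 2 - 5)
      (7680 * instM a ^ 2 + 640 * instM a + 56),
    mkPt (5120 * instM a ^ 2) (2048 * instM a ^ 2 + 7)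
      (11776 * instM a ^ 2 + 640 * instM a + 40),
    mkPt (5120 * instM a ^ 2) (2048 * instM a ^ 2 + 7)
      (6656 * instM a ^ 2 + 640 * instM a + 20)] ++
  (List.range (a.length + 1)).map (fun i =>
    mkPt (5120 * instM a ^ 2) (2048 * instM a ^ 2 + 7)
      (6144 * instM a ^ 2 + 640 * instM a + 20 -
        819200 * a.sum * ((a.length : ℤ) + 3) ^ 2 * (a.take i).sum)) ++
  [mkPt (5120 * instM a ^ 2) (2048 * instM a ^ 2 + 7)
      (5120 * instM a ^ 2 + 640 * instM a + 20),
    mkPt (5120 * instM a ^ 2) (2048 * instM a ^ 2 + 7) (640 * instM a)]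

/-- the instance of a list of integers -/
def instNU (a : List ℤ) : List Pt × List Pt := (instC a, instA a)

theorem length_instC (a : List ℤ) : (instC a).length = 3 := rfl

theorem length_instA (a : List ℤ) : (instA a).length = a.length + 7 := by
  simp [instA]

variable {α : Type} [Code α]

theorem pt_len {a : α → List ℤ} (ha : PT a) : PT (fun x => ((a x).length : ℤ)) :=
  PT.zofPB (PB.ofPT ha.length)

theorem pt_M {a : α → List ℤ} (ha : PT a) : PT (fun x => instM (a x)) :=
  PT.zmul (PT.zmul (PT.const 40) (PT.zsum ha)) (PT.zadd (pt_len ha) (PT.const 3))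

theorem pt_mkPt {U X Y : α → ℤ} (hU : PT U) (hX : PT X) (hY : PT Y) :
    PT (fun x => mkPt (U x) (X x) (Y x)) :=
  (hX.pair hU).pair (hY.pair hU)

theorem pt_instC {a : α → List ℤ} (ha : PT a) : PT (fun x => instC (a x)) := by
  have h : PT (fun x => ((((1 : ℤ), (1 : ℤ)), (256 * instM (a x), (1 : ℤ))) : Pt)) :=
    PT.pair (PT.const _) (PT.pair (PT.zmul (PT.const 256) (pt_M ha)) (PT.const 1))
  exact PT.cons (PT.const _) (PT.cons (PT.const _) (PT.cons h (PT.const [])))

theorem pt_poly {m : α → ℤ} (hm : PT m) (a b c d : ℤ) :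
    PT (fun x => a * m x ^ 3 + b * m x ^ 2 + c * m x + d) :=
  PT.zadd (PT.zadd (PT.zadd (PT.zmul (PT.const _) (PT.zpowC hm 3))
    (PT.zmul (PT.const _) (PT.zpowC hm 2))) (PT.zmul (PT.const _) hm)) (PT.const _)

theorem pt_instA {a : α → List ℤ} (ha : PT a) : PT (fun x => instA (a x)) := by
  have hM := pt_M ha
  have hU : PT (fun x => 5120 * instM (a x) ^ 2) :=
    (pt_poly hM 0 5120 0 0).congr fun x => by ring
  have hX : PT (fun x => 5120 * instM (a x) ^ 2 - 5) :=
    (pt_poly hM 0 5120 0 (-5)).congr fun x => by ring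
  have hX' : PT (fun x => 2048 * instM (a x) ^ 2 + 7) :=
    (pt_poly hM 0 2048 0 7).congr fun x => by ring
  have h1 : PT (fun x => 20480 * instM (a x) ^ 3 + 7680 * instM (a x) ^ 2 +
      640 * instM (a x) + 56) := pt_poly hM _ _ _ _
  have h2 : PT (fun x => 7680 * instM (a x) ^ 2 + 640 * instM (a x) + 56) :=
    (pt_poly hM 0 7680 640 56).congr fun x => by ring
  have h3 : PT (fun x => 11776 * instM (a x) ^ 2 + 640 * instM (a x) + 40) :=
    (pt_poly hM 0 11776 640 40).congr fun x => by ring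
  have h4 : PT (fun x => 6656 * instM (a x) ^ 2 + 640 * instM (a x) + 20) :=
    (pt_poly hM 0 6656 640 20).congr fun x => by ring
  have h5 : PT (fun x => 6144 * instM (a x) ^ 2 + 640 * instM (a x) + 20) :=
    (pt_poly hM 0 6144 640 20).congr fun x => by ring
  have h6 : PT (fun x => 5120 * instM (a x) ^ 2 + 640 * instM (a x) + 20) :=
    (pt_poly hM 0 5120 640 20).congr fun x => by ring
  have h7 : PT (fun x => 640 * instM (a x)) :=
    (pt_poly hM 0 0 640 0).congr fun x => by ring
  have hs : PT (fun x => 819200 * (a x).sum * (((a x).length : ℤ) + 3) ^ 2) :=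
    PT.zmul (PT.zmul (PT.const _) (PT.zsum ha))
      (PT.zpowC (PT.zadd (pt_len ha) (PT.const 3)) 2)
  have hp : PT (fun y : α × ℕ => ((a y.1).take y.2).sum) :=
    PT.zsum (PT.take (ha.comp PT.fst) PT.snd)
  have hmid : PT (fun x => (List.range ((a x).length + 1)).map (fun i =>
      mkPt (5120 * instM (a x) ^ 2) (2048 * instM (a x) ^ 2 + 7)
        (6144 * instM (a x) ^ 2 + 640 * instM (a x) + 20 -
          819200 * (a x).sum * (((a x).length : ℤ) + 3) ^ 2 * ((a x).take i).sum))) :=
    PT.map (g := fun y : α × ℕ => mkPt (5120 * instM (a y.1) ^ 2) (2048 * instM (a y.1) ^ 2 + 7)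
        (6144 * instM (a y.1) ^ 2 + 640 * instM (a y.1) + 20 -
          819200 * (a y.1).sum * (((a y.1).length : ℤ) + 3) ^ 2 * ((a y.1).take y.2).sum))
      ha.length.succ.range
      (pt_mkPt (hU.comp PT.fst) (hX'.comp PT.fst)
        (PT.zsub (h5.comp PT.fst) (PT.zmul (hs.comp PT.fst) hp)))
  refine PT.append (PT.append ?_ hmid) ?_
  · exact PT.cons (pt_mkPt hU hX h1) (PT.cons (pt_mkPt hU hX h2) (PT.cons (pt_mkPt hU hX' h3)
      (PT.cons (pt_mkPt hU hX' h4) (PT.const []))))
  · exact PT.cons (pt_mkPt hU hX' h6) (PT.cons (pt_mkPt hU hX' h7) (PT.const []))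

theorem pt_instNU {a : α → List ℤ} (ha : PT a) : PT (fun x => instNU (a x)) :=
  (pt_instC ha).pair (pt_instA ha)

end Pool.Agent.MP_aff8ab_lc.CL
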