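import Pool.Agent.Work.MP_aff8ab_lc.P.PartSg

/-! Signed sums of a list of positive integers and partitions of the index set. -/

namespace Pool.Agent.MP_aff8ab_lc.CL

open Finset

/-- signs with sum zero are a partition of the indices into two sets with the same sum -/
theorem signed_iff_subset (l : List ℤ) (hpos : ∀ a ∈ l, 0 < a) :
    Signed l 0 ↔ ∃ T ⊆ range l.length,
      ∑ i ∈ T, (l.getD i 0).toNat = ∑ i ∈ range l.length \ T, (l.getD i 0).toNat := by
  classical
  have hl : l = (List.range l.length).map fun i => l.getD i 0 := by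
    apply List.ext_getElem
    · simp
    · intro i h1 h2
      simp [List.getD_eq_getElem?_getD, List.getElem?_eq_getElem h1]
  have hnn : ∀ i, 0 ≤ l.getD i 0 := by
    intro i
    by_cases hi : i < l.length
    · rw [List.getD_eq_getElem?_getD, List.getElem?_eq_getElem hi]
      exact (hpos _ (List.getElem_mem hi)).le
    · rw [List.getD_eq_default _ _ (not_lt.1 hi)]
  have hcast : ∀ i, (((l.getD i 0).toNat : ℕ) : ℤ) = l.getD i 0 := fun i => Int.toNat_of_nonneg (hnn i)
  have key : Signed l 0 ↔ ∃ e : ℕ → Bool, ∑ i ∈ range l.length, sg (e i) * l.getD i 0 = 0 := by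
    have h := signed_map (List.range l.length) List.nodup_range (fun i => l.getD i 0) 0
    rw [← hl] at h
    rw [h]
    refine exists_congr fun e => ?_
    rw [Finset.sum_eq_multiset_sum]
    rfl
  have hsplit : ∀ T ⊆ range l.length, (∑ i ∈ T, (l.getD i 0).toNat =
      ∑ i ∈ range l.length \ T, (l.getD i 0).toNat) ↔
      ∑ i ∈ T, l.getD i 0 - ∑ i ∈ range l.length \ T, l.getD i 0 = 0 := by
    intro T _
    rw [sub_eq_zero, ← Nat.cast_inj (R := ℤ)]
    push_cast
    simp only [hcast]
  have hsum : ∀ e : ℕ → Bool, ∑ i ∈ range l.length, sg (e i) * l.getD i 0 =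
      ∑ i ∈ (range l.length).filter (fun i => e i = true), l.getD i 0 -
        ∑ i ∈ range l.length \ (range l.length).filter (fun i => e i = true), l.getD i 0 := by
    intro e
    rw [← Finset.filter_not, ← Finset.sum_filter_add_sum_filter_not (range l.length)
      (fun i => e i = true), sub_eq_add_neg, ← Finset.sum_neg_distrib]
    congr 1
    · refine Finset.sum_congr rfl fun i hi => ?_
      rw [(Finset.mem_filter.1 hi).2]
      simp [sg]
    · refine Finset.sum_congr rfl fun i hi => ?_
      have : e i = false := by simpa using (Finset.mem_filter.1 hi).2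
      rw [this]
      simp [sg]
  rw [key]
  constructor
  · rintro ⟨e, he⟩
    refine ⟨(range l.length).filter (fun i => e i = true), Finset.filter_subset _ _, ?_⟩
    rw [hsplit _ (Finset.filter_subset _ _), ← hsum]
    exact he
  · rintro ⟨T, hT, h⟩
    refine ⟨fun i => decide (i ∈ T), ?_⟩
    rw [hsum]
    have : (range l.length).filter (fun i => decide (i ∈ T) = true) = T := by
      ext i
      simp only [decide_eq_true_eq, Finset.mem_filter]
      exact ⟨fun h => h.2, fun h => ⟨hT h, h⟩⟩
    rw [this]
    exact (hsplit T hT).1 h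

end Pool.Agent.MP_aff8ab_lc.CL
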