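import Pool.Agent.Work.MP_aff8ab_lc.P.Enc
import Pool.Agent.Work.MP_aff8ab_lc.Defs

/-!
# The decision problem NESTED-UNLOCK on coded instances
-/

namespace Pool.Agent.MP_aff8ab_lc.P

/-- The instance `I` describes the closed chain `c` and the open chain `a`. -/
def Describes (I : Inst) {n k : ℕ} (c : Fin (n + 3) → ℂ) (a : Fin (k + 1 + 1) → ℂ) : Prop :=
  (∀ p ∈ I.1 ++ I.2, p.1.2 ≠ 0 ∧ p.2.2 ≠ 0) ∧
    I.1.map toC = List.ofFn c ∧ I.2.map toC = List.ofFn a

/-- `I` is an input of NESTED-UNLOCK: nonzero denominators, a strictly convex closed chain, an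
open chain with at least one bar, all bars of positive length, in its interior,
non-self-intersecting. -/
def Valid (I : Inst) : Prop :=
  ∃ (n k : ℕ) (c : Fin (n + 3) → ℂ) (a : Fin (k + 1 + 1) → ℂ), Describes I c a ∧
    IsInput c a ∧ ∀ j : Fin (k + 1), a j.castSucc ≠ a j.succ

/-- `I` is an input of NESTED-UNLOCK and the answer is yes. -/
def Yes (I : Inst) : Prop :=
  ∃ (n k : ℕ) (c : Fin (n + 3) → ℂ) (a : Fin (k + 1 + 1) → ℂ), Describes I c a ∧
    IsInput c a ∧ (∀ j : Fin (k + 1), a j.castSucc ≠ a j.succ) ∧ CanStraighten c a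

theorem Describes.unique {I : Inst} {n k n' k' : ℕ} {c : Fin (n + 3) → ℂ}
    {a : Fin (k + 1 + 1) → ℂ} {c' : Fin (n' + 3) → ℂ} {a' : Fin (k' + 1 + 1) → ℂ}
    (h : Describes I c a) (h' : Describes I c' a') :
    ∃ (hn : n' = n) (hk : k' = k), hn ▸ c' = c ∧ hk ▸ a' = a := by
  have h1 : List.ofFn c' = List.ofFn c := h'.2.1.symm.trans h.2.1
  have h2 : List.ofFn a' = List.ofFn a := h'.2.2.symm.trans h.2.2
  have e1 := congrArg List.length h1
  have e2 := congrArg List.length h2
  rw [List.length_ofFn, List.length_ofFn] at e1 e2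
  obtain rfl : n' = n := by omega
  obtain rfl : k' = k := by omega
  exact ⟨rfl, rfl, List.ofFn_injective h1, List.ofFn_injective h2⟩

/-- For an instance that describes an input, the answer is the one for the chains. -/
theorem yes_iff {I : Inst} {n k : ℕ} {c : Fin (n + 3) → ℂ} {a : Fin (k + 1 + 1) → ℂ}
    (h : Describes I c a) (hin : IsInput c a) (hpos : ∀ j : Fin (k + 1), a j.castSucc ≠ a j.succ) :
    Yes I ↔ CanStraighten c a := by
  constructor
  · rintro ⟨n', k', c', a', h', -, -, hs⟩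
    obtain ⟨rfl, rfl, hc, ha⟩ := h.unique h'
    subst hc
    subst ha
    exact hs
  · intro hs
    exact ⟨n, k, c, a, h, hin, hpos, hs⟩

theorem valid_of {I : Inst} {n k : ℕ} {c : Fin (n + 3) → ℂ} {a : Fin (k + 1 + 1) → ℂ}
    (h : Describes I c a) (hin : IsInput c a) (hpos : ∀ j : Fin (k + 1), a j.castSucc ≠ a j.succ) :
    Valid I := ⟨n, k, c, a, h, hin, hpos⟩

theorem Yes.valid {I : Inst} (h : Yes I) : Valid I := by
  obtain ⟨n, k, c, a, h, hin, hpos, -⟩ := h
  exact ⟨n, k, c, a, h, hin, hpos⟩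

end Pool.Agent.MP_aff8ab_lc.P
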