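import Pool.Agent.Work.MP_aff8ab_lc.P.PartPT
import Pool.Agent.Work.MP_aff8ab_lc.P.InstPT
import Pool.Agent.Work.MP_aff8ab_lc.P.SignedT
import Pool.Agent.Work.MP_aff8ab_lc.P.Yes
import Pool.Agent.Work.MP_aff8ab_lc.NP.Inst
import Pool.Agent.Work.MP_aff8ab_lc.NP.MotionA

/-! From partition to the decision problem on coded instances. -/

namespace Pool.Agent.MP_aff8ab_lc.P

open PTime Finset

/-- the members of a list, as natural numbers -/
def natSeq (l : List ℤ) (i : ℕ) : ℕ := (l.getD i 0).toNat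

theorem natSeq_pos {l : List ℤ} (h : ∀ a ∈ l, 0 < a) : ∀ i < l.length, 0 < natSeq l i := by
  intro i hi
  rw [natSeq, List.getD_eq_getElem?_getD, List.getElem?_eq_getElem hi]
  have := h _ (List.getElem_mem hi)
  simp only [Option.getD_some]
  omega

/-- consecutive vertices of the open chain are different -/
theorem chain_ne {n : ℕ} {a : ℕ → ℕ} (hn : 0 < n) (ha : ∀ i < n, 0 < a i) (j : Fin (n + 6)) :
    NP.chain n a j.castSucc ≠ NP.chain n a j.succ := by
  have hok := NP.lenOK hn ha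
  have hW := hok.W0
  have h := NP.conf_dist (NP.dok_zero hok) (t := 0) (s := 1) ⟨le_rfl, zero_le_one⟩
    ⟨zero_le_one, le_rfl⟩ (Or.inr rfl) j
  rw [← NP.chain_eq hn ha] at h
  rw [← dist_pos, h]
  split_ifs with h0 h1
  · positivity
  · have h1 := hok.W1
    unfold NP.xi
    nlinarith
  · exact hok.pos _ (by omega) j.isLt

theorem machine_of
    (hE : ∀ (n : ℕ) (a : ℕ → ℕ), 0 < n → (∀ i < n, 0 < a i) →
      IsInput (NP.thin (256 * NP.MM n a)) (NP.chain n a) ∧
      (CanStraighten (NP.thin (256 * NP.MM n a)) (NP.chain n a) ↔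
        ∃ T ⊆ range n, ∑ i ∈ T, a i = ∑ i ∈ range n \ T, a i))
    (hD : ∀ l : List ℤ, (∀ a ∈ l, 0 < a) → l ≠ [] → Describes (instOfZ (CL.instNU l))
      (NP.thin (256 * NP.MM l.length (natSeq l))) (NP.chain l.length (natSeq l)))
    (L : Set (List Bool)) (hL : InNP L) :
    ∃ f : List Bool → Inst, Nonempty (Turing.TM2ComputableInPolyTime (fun x : List Bool => x) encInst f) ∧
      ∀ x, Valid (f x) ∧ (x ∈ L ↔ Yes (f x)) := by
  obtain ⟨g, hg, hx, hpos⟩ := CL.part_hard hL
  refine ⟨fun x => instOfZ (CL.instNU (g x)), inst_machine (CL.pt_instNU hg), fun x => ?_⟩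
  obtain ⟨h1, h2⟩ := hpos x
  have hn : 0 < (g x).length := List.length_pos_iff.2 h2
  obtain ⟨hin, hiff⟩ := hE (g x).length (natSeq (g x)) hn (natSeq_pos h1)
  have hd := hD (g x) h1 h2
  refine ⟨valid_of hd hin (chain_ne hn (natSeq_pos h1)), ?_⟩
  rw [yes_iff hd hin (chain_ne hn (natSeq_pos h1)), hiff, hx x, CL.signed_iff_subset _ h1]
  rfl

end Pool.Agent.MP_aff8ab_lc.P
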