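import Pool.Agent.Work.MP_2f1fa1_lc.PNP
import Pool.Agent.Work.MP_2f1fa1_lc.PDiv

/-!
# Binary arithmetic in polynomial time

`PB f` : the function `f : α → ℕ` is computable in polynomial time with the value written in
binary.  Sums, products, differences, comparisons, powers of two; then the same for integers, which
are coded by the sign and the binary absolute value.
-/

namespace PTime

variable {α β γ : Type} [Code α] [Code β] [Code γ]

/-! ### values of bit lists -/

/-- the value of a little endian list of bits -/
def bval : List Bool → ℕ
  | [] => 0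
  | b :: l => b.toNat + 2 * bval l

theorem bval_append (u v : List Bool) : bval (u ++ v) = bval u + 2 ^ u.length * bval v := by
  induction u with
  | nil => simp [bval]
  | cons b u ih =>
    rw [List.cons_append, bval, bval, ih, List.length_cons, pow_succ]
    ring

theorem bval_lt (u : List Bool) : bval u < 2 ^ u.length := by
  induction u with
  | nil => simp [bval]
  | cons b u ih =>
    rw [bval, List.length_cons, pow_succ]
    cases b <;> simp <;> omega

theorem bval_binc (l : List Bool) : bval (binc l) = bval l + 1 := by
  induction l with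
  | nil => simp [binc, bval]
  | cons b l ih =>
    cases b with
    | false => simp [binc, bval]; ring
    | true => simp only [binc, bval, ih]; simp; ring

theorem bval_eq_bit (b : Bool) (l : List Bool) : bval (b :: l) = Nat.bit b (bval l) := by
  rw [bval]
  cases b <;> simp [Nat.bit] <;> ring

/-- drop the leading zeros -/
def trim : List Bool → List Bool
  | [] => []
  | b :: l => bif (trim l).isEmpty && !b then [] else b :: trim l

theorem trim_eq (l : List Bool) : trim l = (bval l).bits := by
  induction l with
  | nil => simp [trim, bval]
  | cons b l ih =>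
    rw [trim, ih, bval_eq_bit]
    by_cases h : bval l = 0
    · rw [h]
      cases b with
      | false => simp [Nat.bit]
      | true => simp [Nat.bit]
    · rw [Nat.bits_append_bit _ _ (fun h' => absurd h' h)]
      have h1 : (bval l).bits.isEmpty = false := by
        rw [List.isEmpty_eq_false_iff]
        intro h2
        apply h
        have h3 : (bval l).bits = (0 : ℕ).bits := by rw [h2]; simp
        exact bits_inj h3
      rw [h1]
      rfl

theorem bval_bits (n : ℕ) : bval n.bits = n := by
  refine bits_inj ?_
  rw [← trim_eq]
  induction n using Nat.binaryRec with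
  | zero => simp [trim]
  | bit b n ih =>
    by_cases hn : n = 0 ∧ b = false
    · obtain ⟨rfl, rfl⟩ := hn
      simp [trim]
    · have h1 : n = 0 → b = true := fun h => by
        cases b with
        | true => rfl
        | false => exact absurd ⟨h, rfl⟩ hn
      rw [Nat.bits_append_bit _ _ h1, trim, ih]
      by_cases h2 : n = 0
      · rw [h1 h2, h2]
        simp
      · have h3 : n.bits.isEmpty = false := by
          rw [List.isEmpty_eq_false_iff]
          intro h4
          apply h2
          have h5 : n.bits = (0 : ℕ).bits := by rw [h4]; simp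
          exact bits_inj h5
        rw [h3]
        rfl

theorem bits_length (n : ℕ) : n.bits.length = n.size := Nat.size_eq_bits_len n

theorem trim_foldl (l : List Bool) : trim l =
    l.reverse.foldl (fun s b => bif s.isEmpty && !b then [] else b :: s) [] := by
  rw [List.foldl_reverse]
  induction l with
  | nil => rfl
  | cons b l ih => rw [trim, List.foldr_cons, ih]

theorem sz_bits_le (l : List Bool) : sz l ≤ 4 * l.length + 1 := by
  have := sz_list_le (l := l) (B := 3) fun b _ => sz_bool b
  omega

theorem trimFold_length (l : List Bool) : ∀ s : List Bool,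
    (l.foldl (fun s b => bif s.isEmpty && !b then [] else b :: s) s).length ≤
      s.length + l.length := by
  induction l with
  | nil => intro s; simp
  | cons b l ih =>
    intro s
    rw [List.foldl_cons, List.length_cons]
    refine (ih _).trans ?_
    cases (s.isEmpty && !b)
    · simp only [cond_false, List.length_cons]; omega
    · simp only [cond_true, List.length_nil]; omega

theorem PT.trim {l : α → List Bool} (hl : PT l) : PT (fun a => trim (l a)) := by
  have h : PT (fun l : List Bool => PTime.trim l) := by
    have h1 := PT.foldl (α := List Bool) (σ := List Bool) (β := Bool)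
        (g := fun x => bif x.2.1.isEmpty && !x.2.2 then [] else x.2.2 :: x.2.1)
        (l := fun l => l.reverse) (s := fun _ => []) (PT.id.reverse) (PT.const [])
        (PT.cond ((PT.fst.comp PT.snd).isEmpty.and (PT.snd.comp PT.snd).not) (PT.const [])
          ((PT.snd.comp PT.snd).cons (PT.fst.comp PT.snd)))
        (4 * Polynomial.X + 1) (by
          intro a l' hl'
          refine (sz_bits_le _).trans ?_
          have h1 := trimFold_length l' []
          have h2 := hl'.length_le
          rw [List.length_reverse] at h2
          have h3 := length_le_sz a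
          simp only [List.length_nil] at h1
          simp only [Polynomial.eval_add, Polynomial.eval_mul, Polynomial.eval_X,
            Polynomial.eval_ofNat, Polynomial.eval_one]
          omega)
    exact h1.congr fun l => (trim_foldl l).symm
  exact h.comp hl

/-! ### addition -/

/-- one step of the addition: (carry, rest of the second number, digits of the sum) -/
def addStep (s : Bool × List Bool × List Bool) (b : Bool) : Bool × List Bool × List Bool :=
  ((s.1 && b) || (s.1 && s.2.1.headD false) || (b && s.2.1.headD false), s.2.1.tail,
    xor (xor s.1 b) (s.2.1.headD false) :: s.2.2)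

theorem bval_head_tail (y : List Bool) : bval y = (y.headD false).toNat + 2 * bval y.tail := by
  cases y <;> simp [bval]

theorem addStep_val (l : List Bool) : ∀ s : Bool × List Bool × List Bool,
    bval (l.foldl addStep s).2.2.reverse + 2 ^ (l.foldl addStep s).2.2.length *
      ((l.foldl addStep s).1.toNat + bval (l.foldl addStep s).2.1) =
    bval s.2.2.reverse + 2 ^ s.2.2.length * (s.1.toNat + bval s.2.1 + bval l) := by
  induction l with
  | nil => intro s; simp [bval]
  | cons b l ih =>
    intro s
    rw [List.foldl_cons, ih]
    obtain ⟨c, y, acc⟩ := s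
    rw [bval_head_tail y, bval]
    simp only [addStep, List.reverse_cons, bval_append, List.length_reverse, List.length_cons,
      pow_succ]
    generalize y.headD false = d
    cases c <;> cases b <;> cases d <;> simp [bval] <;> ring

theorem addStep_length (l : List Bool) : ∀ s : Bool × List Bool × List Bool,
    (l.foldl addStep s).2.2.length = s.2.2.length + l.length ∧
    (l.foldl addStep s).2.1.length ≤ s.2.1.length := by
  induction l with
  | nil => intro s; simp
  | cons b l ih =>
    intro s
    rw [List.foldl_cons]
    obtain ⟨h1, h2⟩ := ih (addStep s b)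
    refine ⟨?_, h2.trans ?_⟩
    · rw [h1]
      simp only [addStep, List.length_cons]
      omega
    · simp only [addStep, List.length_tail]
      omega

/-- the sum of two bit lists -/
def addL (x y : List Bool) : List Bool :=
  trim ((x.foldl addStep (false, y, [])).2.2.reverse ++
    bif (x.foldl addStep (false, y, [])).1 then binc (x.foldl addStep (false, y, [])).2.1
      else (x.foldl addStep (false, y, [])).2.1)

theorem addL_eq (x y : List Bool) : addL x y = (bval x + bval y).bits := by
  rw [addL, trim_eq]
  congr 1
  have h := addStep_val x (false, y, [])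
  rw [bval_append, List.length_reverse]
  have e : bval (bif (x.foldl addStep (false, y, [])).1 then
      binc (x.foldl addStep (false, y, [])).2.1 else (x.foldl addStep (false, y, [])).2.1) =
      (x.foldl addStep (false, y, [])).1.toNat + bval (x.foldl addStep (false, y, [])).2.1 := by
    cases (x.foldl addStep (false, y, [])).1
    · simp
    · simp [bval_binc]; ring
  rw [e, h]
  simp [bval]
  ring

theorem sz_state (s : Bool × List Bool × List Bool) :
    sz s ≤ 4 * s.2.1.length + 4 * s.2.2.length + 7 := by
  obtain ⟨c, y, acc⟩ := s
  rw [sz_pair, sz_pair]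
  have h1 := sz_bool c
  have h2 := sz_bits_le y
  have h3 := sz_bits_le acc
  simp only
  omega

theorem PT.foldStep {stp : Bool × List Bool × List Bool → Bool → Bool × List Bool × List Bool}
    (h : PT (fun x : (Bool × List Bool × List Bool) × Bool => stp x.1 x.2))
    (hlen : ∀ (l : List Bool) (s : Bool × List Bool × List Bool),
      (l.foldl stp s).2.2.length = s.2.2.length + l.length ∧
      (l.foldl stp s).2.1.length ≤ s.2.1.length)
    {x y : α → List Bool} (hx : PT x) (hy : PT y) :
    PT (fun a => (x a).foldl stp (false, y a, [])) := by
  have h1 : PT (fun z : List Bool × List Bool => z.1.foldl stp (false, z.2, [])) := by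
    refine PT.foldl (α := List Bool × List Bool) (σ := Bool × List Bool × List Bool) (β := Bool)
      (g := fun w => stp w.2.1 w.2.2) (l := fun z => z.1) (s := fun z => (false, z.2, []))
      PT.fst ((PT.const false).pair (PT.snd.pair (PT.const [])))
      (h.comp PT.snd) (4 * Polynomial.X + 7) ?_
    intro a l' hl'
    obtain ⟨e1, e2⟩ := hlen l' (false, a.2, [])
    show sz (l'.foldl stp (false, a.2, [])) ≤ _
    refine (sz_state _).trans ?_
    have h3 := hl'.length_le
    have h4 := length_le_sz a.1
    have h5 := length_le_sz a.2
    have h6 : sz a = sz a.1 + sz a.2 + 1 := by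
      obtain ⟨u, v⟩ := a
      exact sz_pair u v
    simp only [List.length_nil] at e1
    simp only at e2
    simp only [Polynomial.eval_add, Polynomial.eval_mul, Polynomial.eval_X,
      Polynomial.eval_ofNat]
    omega
  exact h1.comp (hx.pair hy)

theorem PT.addStep : PT (fun x : (Bool × List Bool × List Bool) × Bool => addStep x.1 x.2) := by
  have c : PT (fun x : (Bool × List Bool × List Bool) × Bool => x.1.1) := PT.fst.comp PT.fst
  have y : PT (fun x : (Bool × List Bool × List Bool) × Bool => x.1.2.1) :=
    PT.fst.comp (PT.snd.comp PT.fst)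
  have acc : PT (fun x : (Bool × List Bool × List Bool) × Bool => x.1.2.2) :=
    PT.snd.comp (PT.snd.comp PT.fst)
  have b : PT (fun x : (Bool × List Bool × List Bool) × Bool => x.2) := PT.snd
  have d := y.headD (PT.const false)
  exact (((c.and b).or (c.and d)).or (b.and d)).pair (y.tail.pair (((c.xor b).xor d).cons acc))

theorem PT.addL {x y : α → List Bool} (hx : PT x) (hy : PT y) :
    PT (fun a => addL (x a) (y a)) := by
  have h := PT.foldStep PT.addStep addStep_length hx hy
  exact (h.snd'.snd'.reverse.append (PT.cond h.fst' h.snd'.fst'.binc h.snd'.fst')).trim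

/-! ### subtraction and comparison -/

/-- one step of the subtraction: (borrow, rest of the subtrahend, digits) -/
def subStep (s : Bool × List Bool × List Bool) (b : Bool) : Bool × List Bool × List Bool :=
  ((!b && s.2.1.headD false) || (!b && s.1) || (s.2.1.headD false && s.1), s.2.1.tail,
    xor (xor b (s.2.1.headD false)) s.1 :: s.2.2)

theorem subStep_val (l : List Bool) : ∀ s : Bool × List Bool × List Bool,
    bval s.2.2.reverse + 2 ^ s.2.2.length * bval l + 2 ^ (l.foldl subStep s).2.2.length *
      ((l.foldl subStep s).1.toNat + bval (l.foldl subStep s).2.1) =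
    bval (l.foldl subStep s).2.2.reverse + 2 ^ s.2.2.length * (s.1.toNat + bval s.2.1) := by
  induction l with
  | nil => intro s; simp [bval]
  | cons b l ih =>
    intro s
    have h := ih (subStep s b)
    rw [List.foldl_cons]
    obtain ⟨c, y, acc⟩ := s
    rw [bval_head_tail y, bval]
    simp only [subStep, List.reverse_cons, bval_append, List.length_reverse, List.length_cons,
      pow_succ] at h ⊢
    generalize y.headD false = d at *
    cases c <;> cases b <;> cases d <;> simp [bval] at h ⊢ <;> linarith

theorem subStep_length (l : List Bool) : ∀ s : Bool × List Bool × List Bool,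
    (l.foldl subStep s).2.2.length = s.2.2.length + l.length ∧
    (l.foldl subStep s).2.1.length ≤ s.2.1.length := by
  induction l with
  | nil => intro s; simp
  | cons b l ih =>
    intro s
    rw [List.foldl_cons]
    obtain ⟨h1, h2⟩ := ih (subStep s b)
    refine ⟨?_, h2.trans ?_⟩
    · rw [h1]
      simp only [subStep, List.length_cons]
      omega
    · simp only [subStep, List.length_tail]
      omega

/-- comparison of the values of two bit lists -/
def geL (x y : List Bool) : Bool :=
  !(x.foldl subStep (false, y, [])).1 && (trim (x.foldl subStep (false, y, [])).2.1).isEmpty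

/-- the truncated difference of two bit lists -/
def subL (x y : List Bool) : List Bool :=
  bif geL x y then trim (x.foldl subStep (false, y, [])).2.2.reverse else []

theorem trim_isEmpty (l : List Bool) : (trim l).isEmpty = decide (bval l = 0) := by
  rw [trim_eq, Bool.eq_iff_iff, decide_eq_true_iff, List.isEmpty_iff]
  constructor
  · intro h
    have h3 : (bval l).bits = (0 : ℕ).bits := by rw [h]; simp
    exact bits_inj h3
  · intro h
    rw [h]
    simp

theorem geL_sub (x y : List Bool) : geL x y = decide (bval y ≤ bval x) ∧
    (bval y ≤ bval x → bval (x.foldl subStep (false, y, [])).2.2.reverse = bval x - bval y) := by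
  have h := subStep_val x (false, y, [])
  have hl := (subStep_length x (false, y, [])).1
  have hb := bval_lt (x.foldl subStep (false, y, [])).2.2.reverse
  rw [List.length_reverse] at hb
  rw [geL, trim_isEmpty]
  generalize x.foldl subStep (false, y, []) = r at *
  simp only [List.reverse_nil, bval, List.length_nil, pow_zero, Bool.toNat_false] at h
  set P := 2 ^ r.2.2.length with hP
  by_cases hc : r.1.toNat + bval r.2.1 = 0
  · have h1 : r.1 = false := by
      cases hr : r.1 with
      | false => rfl
      | true => rw [hr] at hc; simp at hc
    have h2 : bval r.2.1 = 0 := by omega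
    rw [hc, mul_zero] at h
    refine ⟨?_, fun _ => by omega⟩
    rw [h1, h2]
    simp only [Bool.not_false, decide_true, Bool.and_self]
    exact (decide_eq_true (by omega)).symm
  · have h3 : P ≤ P * (r.1.toNat + bval r.2.1) := Nat.le_mul_of_pos_right _ (by omega)
    have h4 : ¬ bval y ≤ bval x := by omega
    refine ⟨?_, fun h' => absurd h' h4⟩
    rw [decide_eq_false h4]
    cases hr : r.1 with
    | true => rfl
    | false =>
      rw [hr] at hc
      simp only [Bool.toNat_false, zero_add] at hc
      rw [decide_eq_false hc]
      rfl

theorem geL_eq (x y : List Bool) : geL x y = decide (bval y ≤ bval x) := (geL_sub x y).1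

theorem subL_eq (x y : List Bool) : subL x y = (bval x - bval y).bits := by
  obtain ⟨h1, h2⟩ := geL_sub x y
  rw [subL, h1]
  by_cases h : bval y ≤ bval x
  · rw [decide_eq_true h, cond_true, trim_eq, h2 h]
  · rw [decide_eq_false h, cond_false, Nat.sub_eq_zero_of_le (by omega)]
    simp

theorem PT.subStep : PT (fun x : (Bool × List Bool × List Bool) × Bool => subStep x.1 x.2) := by
  have c : PT (fun x : (Bool × List Bool × List Bool) × Bool => x.1.1) := PT.fst.comp PT.fst
  have y : PT (fun x : (Bool × List Bool × List Bool) × Bool => x.1.2.1) :=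
    PT.fst.comp (PT.snd.comp PT.fst)
  have acc : PT (fun x : (Bool × List Bool × List Bool) × Bool => x.1.2.2) :=
    PT.snd.comp (PT.snd.comp PT.fst)
  have b : PT (fun x : (Bool × List Bool × List Bool) × Bool => x.2) := PT.snd
  have d := y.headD (PT.const false)
  exact (((b.not.and d).or (b.not.and c)).or (d.and c)).pair
    (y.tail.pair (((b.xor d).xor c).cons acc))

theorem PT.geL {x y : α → List Bool} (hx : PT x) (hy : PT y) :
    PT (fun a => geL (x a) (y a)) := by
  have h := PT.foldStep PT.subStep subStep_length hx hy
  exact h.fst'.not.and h.snd'.fst'.trim.isEmpty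

theorem PT.subL {x y : α → List Bool} (hx : PT x) (hy : PT y) :
    PT (fun a => subL (x a) (y a)) := by
  have h := PT.foldStep PT.subStep subStep_length hx hy
  exact PT.cond (PT.geL hx hy) h.snd'.snd'.reverse.trim (PT.const [])

/-! ### multiplication -/

/-- the product of two bit lists -/
def mulL (x y : List Bool) : List Bool :=
  x.reverse.foldl (fun s b => addL (false :: s) (bif b then y else [])) []

theorem mulL_fold (y : List Bool) (l : List Bool) :
    l.foldl (fun s b => addL (false :: s) (bif b then y else [])) [] =
      (bval l.reverse * bval y).bits := by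
  induction l using List.reverseRecOn with
  | nil => simp [bval]
  | append_singleton l b ih =>
    rw [List.foldl_append, List.foldl_cons, List.foldl_nil, ih, addL_eq, List.reverse_append,
      List.reverse_singleton, List.singleton_append, bval, bval, bval_bits]
    congr 1
    cases b <;> simp [bval] <;> ring

theorem mulL_eq (x y : List Bool) : mulL x y = (bval x * bval y).bits := by
  rw [mulL, mulL_fold, List.reverse_reverse]

theorem mulL_sz (y l : List Bool) :
    sz (l.foldl (fun s b => addL (false :: s) (bif b then y else [])) []) ≤
      4 * (l.length + y.length) + 1 := by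
  rw [mulL_fold]
  refine (sz_bits_le _).trans ?_
  have h7 : (bval l.reverse * bval y).bits.length ≤ l.length + y.length := by
    rw [bits_length, Nat.size_le, pow_add]
    have h8 := bval_lt l.reverse
    rw [List.length_reverse] at h8
    exact Nat.mul_lt_mul'' h8 (bval_lt y)
  omega

theorem PT.mulStep : PT (fun w : (List Bool × List Bool) × List Bool × Bool =>
    PTime.addL (false :: w.2.1) (bif w.2.2 then w.1.2 else [])) :=
  PT.addL ((PT.const false).cons (PT.fst.comp PT.snd))
    (PT.cond (PT.snd.comp PT.snd) (PT.snd.comp PT.fst) (PT.const []))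

theorem mulL_bound (a : List Bool × List Bool) (l' : List Bool) (hl' : l' <+: a.1.reverse) :
    sz (l'.foldl (fun s b => addL (false :: s) (bif b then a.2 else [])) []) ≤
      (4 * Polynomial.X + 1 : Polynomial ℕ).eval (sz a) := by
  refine (mulL_sz a.2 l').trans ?_
  have h3 := hl'.length_le
  rw [List.length_reverse] at h3
  have h4 := length_le_sz a.1
  have h5 := length_le_sz a.2
  have h6 : sz a = sz a.1 + sz a.2 + 1 := by
    obtain ⟨u, v⟩ := a
    exact sz_pair u v
  simp only [Polynomial.eval_add, Polynomial.eval_mul, Polynomial.eval_X,
    Polynomial.eval_ofNat, Polynomial.eval_one]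
  omega

theorem PT.mulL2 : PT (fun z : List Bool × List Bool => PTime.mulL z.1 z.2) :=
  PT.foldl (α := List Bool × List Bool) (σ := List Bool) (β := Bool)
    (g := fun w => PTime.addL (false :: w.2.1) (bif w.2.2 then w.1.2 else []))
    (l := fun z => z.1.reverse) (s := fun _ => []) PT.fst.reverse (PT.const []) PT.mulStep
    (4 * Polynomial.X + 1) mulL_bound

theorem PT.mulL {x y : α → List Bool} (hx : PT x) (hy : PT y) :
    PT (fun a => PTime.mulL (x a) (y a)) := by
  have h := PT.comp (f := fun a => (x a, y a)) (g := fun z : List Bool × List Bool =>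
    PTime.mulL z.1 z.2) PT.mulL2 (hx.pair hy)
  exact h

/-! ### natural numbers in binary -/

/-- the function is computable in polynomial time, the value in binary -/
def PB (f : α → ℕ) : Prop := PT (fun a => (f a).bits)

theorem PB.congr {f g : α → ℕ} (h : PB f) (e : ∀ a, f a = g a) : PB g := by
  have : f = g := funext e
  exact this ▸ h

theorem PB.comp {f : β → ℕ} {g : α → β} (hf : PB f) (hg : PT g) : PB (fun a => f (g a)) :=
  PT.comp (g := fun b => (f b).bits) hf hg

theorem PB.ofBits {l : α → List Bool} (hl : PT l) : PB (fun a => bval (l a)) :=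
  hl.trim.congr fun a => trim_eq _

theorem PB.ofPT {n : α → ℕ} (hn : PT n) : PB n := hn.bits

theorem PB.const (c : ℕ) : PB (fun _ : α => c) := PT.const _

theorem PB.add {f g : α → ℕ} (hf : PB f) (hg : PB g) : PB (fun a => f a + g a) :=
  (PT.addL hf hg).congr fun a => by rw [addL_eq, bval_bits, bval_bits]

theorem PB.sub {f g : α → ℕ} (hf : PB f) (hg : PB g) : PB (fun a => f a - g a) :=
  (PT.subL hf hg).congr fun a => by rw [subL_eq, bval_bits, bval_bits]

theorem PB.mul {f g : α → ℕ} (hf : PB f) (hg : PB g) : PB (fun a => f a * g a) :=
  (PT.mulL hf hg).congr fun a => by rw [mulL_eq, bval_bits, bval_bits]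

theorem PB.le {f g : α → ℕ} (hf : PB f) (hg : PB g) : PT (fun a => decide (f a ≤ g a)) :=
  (PT.geL hg hf).congr fun a => by rw [geL_eq, bval_bits, bval_bits]

theorem PB.lt {f g : α → ℕ} (hf : PB f) (hg : PB g) : PT (fun a => decide (f a < g a)) :=
  (PB.le hg hf).not.congr fun a => by
    rw [← decide_not]
    exact decide_eq_decide.2 not_le

theorem PB.eq {f g : α → ℕ} (hf : PB f) (hg : PB g) : PT (fun a => decide (f a = g a)) :=
  (PT.eq hf hg).congr fun a => decide_eq_decide.2 ⟨fun h => bits_inj h, fun h => by rw [h]⟩

theorem PB.isZero {f : α → ℕ} (hf : PB f) : PT (fun a => decide (f a = 0)) :=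
  PB.eq hf (PB.const 0)

theorem PB.cond {c : α → Bool} {f g : α → ℕ} (hc : PT c) (hf : PB f) (hg : PB g) :
    PB (fun a => bif c a then f a else g a) :=
  (PT.cond hc hf hg).congr fun a => by
    show _ = (bif c a then f a else g a).bits
    cases c a <;> rfl

theorem PB.ite {P : α → Prop} [DecidablePred P] {f g : α → ℕ}
    (hc : PT (fun a => decide (P a))) (hf : PB f) (hg : PB g) :
    PB (fun a => if P a then f a else g a) :=
  (PT.ite hc hf hg).congr fun a => by
    show _ = (if P a then f a else g a).bits
    split_ifs <;> rfl

theorem bval_replicate (k : ℕ) : bval (List.replicate k false ++ [true]) = 2 ^ k := by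
  rw [bval_append, List.length_replicate]
  have : bval (List.replicate k false) = 0 := by
    induction k with
    | zero => rfl
    | succ k ih => rw [List.replicate_succ, bval, ih]; rfl
  rw [this]
  simp [bval]

/-- powers of two, the exponent in unary -/
theorem PB.pow2 {k : α → ℕ} (hk : PT k) : PB (fun a => 2 ^ k a) := by
  have h1 : PT (fun a => (List.replicate (k a) ()).map fun _ => false) :=
    PT.map (g := fun _ : α × Unit => false) hk.replicate (PT.const false)
  refine (PB.ofBits (h1.append (PT.const [true]))).congr fun a => ?_
  rw [List.map_replicate, bval_replicate]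

theorem PB.powC {f : α → ℕ} (hf : PB f) (k : ℕ) : PB (fun a => f a ^ k) := by
  induction k with
  | zero => exact (PB.const 1).congr fun a => by simp
  | succ k ih => exact (PB.mul ih hf).congr fun a => by rw [pow_succ]

theorem bits_add_length (m n : ℕ) : (m + n).bits.length ≤ m.bits.length + n.bits.length := by
  rw [bits_length, bits_length, bits_length]
  rcases Nat.eq_zero_or_pos m with rfl | hm
  · simp
  rcases Nat.eq_zero_or_pos n with rfl | hn
  · simp
  rw [Nat.size_le]
  have h1 := Nat.lt_size_self m
  have h2 := Nat.lt_size_self n
  have h3 : 1 ≤ m.size := Nat.size_pos.2 hm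
  have h4 : 1 ≤ n.size := Nat.size_pos.2 hn
  have h5 : 2 ^ 1 ≤ 2 ^ m.size := Nat.pow_le_pow_right (by norm_num) h3
  have h6 : 2 ^ 1 ≤ 2 ^ n.size := Nat.pow_le_pow_right (by norm_num) h4
  rw [pow_add]
  nlinarith

/-! ### integers -/

/-- the integer with a given sign and absolute value -/
def mkZ (s : Bool) (n : ℕ) : ℤ := bif s then -(n : ℤ) else n

theorem PT.mkZ {s : α → Bool} {n : α → ℕ} (hs : PT s) (hn : PB n) :
    PT (fun a => mkZ (s a) (n a)) := by
  refine PT.recode2 ((hs.and (PB.isZero hn).not).pair hn) fun a => ?_
  show Code.toT (decide (PTime.mkZ (s a) (n a) < 0), (PTime.mkZ (s a) (n a)).natAbs.bits) = _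
  unfold PTime.mkZ
  congr 2
  · cases s a
    · simp
    · simp [Nat.pos_iff_ne_zero]
  · congr 1
    cases s a <;> simp

theorem PT.zabs {z : α → ℤ} (hz : PT z) : PB (fun a => (z a).natAbs) := by
  have h : PT (fun a => (decide (z a < 0), (z a).natAbs.bits)) := PT.recode2 hz fun _ => rfl
  exact h.snd'

theorem PT.zisNeg {z : α → ℤ} (hz : PT z) : PT (fun a => decide (z a < 0)) := by
  have h : PT (fun a => (decide (z a < 0), (z a).natAbs.bits)) := PT.recode2 hz fun _ => rfl
  exact h.fst'

theorem PT.zofPB {n : α → ℕ} (hn : PB n) : PT (fun a => (n a : ℤ)) :=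
  (PT.mkZ (PT.const false) hn).congr fun _ => rfl

theorem PT.zneg {z : α → ℤ} (hz : PT z) : PT (fun a => -z a) :=
  (PT.mkZ hz.zisNeg.not hz.zabs).congr fun a => by
    unfold PTime.mkZ
    by_cases h : z a < 0
    · simp only [h, decide_true, Bool.not_true, cond_false]; omega
    · simp only [h, decide_false, Bool.not_false, cond_true]; omega

theorem PT.zmul {z w : α → ℤ} (hz : PT z) (hw : PT w) : PT (fun a => z a * w a) :=
  (PT.mkZ (hz.zisNeg.xor hw.zisNeg) (PB.mul hz.zabs hw.zabs)).congr fun a => by
    unfold PTime.mkZ
    rw [Nat.cast_mul]
    by_cases h : z a < 0 <;> by_cases h' : w a < 0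
    · have e1 : ((z a).natAbs : ℤ) = -z a := by omega
      have e2 : ((w a).natAbs : ℤ) = -w a := by omega
      simp only [h, h', decide_true, Bool.xor_self, cond_false, e1, e2]; ring
    · have e1 : ((z a).natAbs : ℤ) = -z a := by omega
      have e2 : ((w a).natAbs : ℤ) = w a := by omega
      simp only [h, h', decide_true, decide_false, Bool.xor_false, cond_true, e1, e2]; ring
    · have e1 : ((z a).natAbs : ℤ) = z a := by omega
      have e2 : ((w a).natAbs : ℤ) = -w a := by omega
      simp only [h, h', decide_true, decide_false, Bool.false_xor, cond_true, e1, e2]; ring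
    · have e1 : ((z a).natAbs : ℤ) = z a := by omega
      have e2 : ((w a).natAbs : ℤ) = w a := by omega
      simp only [h, h', decide_false, Bool.xor_self, cond_false, e1, e2]

theorem PT.zadd {z w : α → ℤ} (hz : PT z) (hw : PT w) : PT (fun a => z a + w a) := by
  have hs := PT.zisNeg hz
  have ht := PT.zisNeg hw
  have hx := PT.zabs hz
  have hy := PT.zabs hw
  have h1 := PT.mkZ hs (PB.add hx hy)
  have h2 := PT.cond (PB.le hy hx) (PT.mkZ hs (PB.sub hx hy)) (PT.mkZ ht (PB.sub hy hx))
  refine (PT.cond (hs.xor ht) h2 h1).congr fun a => ?_
  unfold PTime.mkZ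
  by_cases h : z a < 0 <;> by_cases h' : w a < 0 <;>
    simp only [h, h', decide_true, decide_false, Bool.xor_self, Bool.xor_false, Bool.false_xor,
      cond_true, cond_false]
  · rw [Nat.cast_add]; omega
  · by_cases h3 : (w a).natAbs ≤ (z a).natAbs
    · simp only [h3, decide_true, cond_true]; omega
    · simp only [h3, decide_false, cond_false]; omega
  · by_cases h3 : (w a).natAbs ≤ (z a).natAbs
    · simp only [h3, decide_true, cond_true]; omega
    · simp only [h3, decide_false, cond_false]; omega
  · rw [Nat.cast_add]; omega

theorem PT.zsub {z w : α → ℤ} (hz : PT z) (hw : PT w) : PT (fun a => z a - w a) :=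
  (PT.zadd hz (PT.zneg hw)).congr fun a => (sub_eq_add_neg _ _).symm

theorem PT.zlt {z w : α → ℤ} (hz : PT z) (hw : PT w) : PT (fun a => decide (z a < w a)) :=
  (PT.zisNeg (PT.zsub hz hw)).congr fun a => decide_eq_decide.2 sub_neg

theorem PT.zle {z w : α → ℤ} (hz : PT z) (hw : PT w) : PT (fun a => decide (z a ≤ w a)) :=
  (PT.zlt hw hz).not.congr fun a => by
    rw [← decide_not]
    exact decide_eq_decide.2 not_lt

theorem PT.zeq {z w : α → ℤ} (hz : PT z) (hw : PT w) : PT (fun a => decide (z a = w a)) :=
  PT.eq hz hw

theorem PT.zpowC {z : α → ℤ} (hz : PT z) (k : ℕ) : PT (fun a => z a ^ k) := by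
  induction k with
  | zero => exact (PT.const (1 : ℤ)).congr fun a => by simp
  | succ k ih => exact (PT.zmul ih hz).congr fun a => by rw [pow_succ]

theorem PT.ztoNat {z : α → ℤ} (hz : PT z) : PB (fun a => (z a).toNat) :=
  (PB.cond hz.zisNeg (PB.const 0) hz.zabs).congr fun a => by
    by_cases h : z a < 0
    · simp only [h, decide_true, cond_true]; omega
    · simp only [h, decide_false, cond_false]; omega

/-- powers of two, the exponent in unary -/
theorem PT.zpow2 {k : α → ℕ} (hk : PT k) : PT (fun a => (2 : ℤ) ^ k a) :=
  (PT.zofPB (PB.pow2 hk)).congr fun a => by push_cast; rfl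

theorem sz_int (z : ℤ) : sz z = sz (decide (z < 0)) + sz z.natAbs.bits + 1 := by
  have : enc z = enc (decide (z < 0), z.natAbs.bits) := rfl
  unfold sz
  rw [this]
  exact sz_pair _ _

theorem sz_int_le (z : ℤ) : sz z ≤ 4 * z.natAbs.bits.length + 5 := by
  rw [sz_int]
  have h1 := sz_bool (decide (z < 0))
  have h2 := sz_bits_le z.natAbs.bits
  omega

theorem bits_length_le_sz (z : ℤ) : z.natAbs.bits.length ≤ sz z := by
  rw [sz_int]
  have := length_le_sz z.natAbs.bits
  omega

theorem size_mono {m n : ℕ} (h : m ≤ n) : m.bits.length ≤ n.bits.length := by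
  rw [bits_length, bits_length]
  exact Nat.size_le_size h

theorem natAbs_sum_bits (l : List ℤ) : l.sum.natAbs.bits.length ≤ sz l := by
  induction l with
  | nil => simp
  | cons z l ih =>
    rw [List.sum_cons, sz_cons]
    have h1 := size_mono (Int.natAbs_add_le z l.sum)
    have h2 := bits_add_length z.natAbs l.sum.natAbs
    have h3 := bits_length_le_sz z
    omega

/-- sum of a list of integers -/
theorem PT.zsum {l : α → List ℤ} (hl : PT l) : PT (fun a => (l a).sum) := by
  have h1 : PT (fun l : List ℤ => l.foldl (fun s z => s + z) 0) := by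
    refine PT.foldl (α := List ℤ) (σ := ℤ) (β := ℤ)
      (g := fun w => w.2.1 + w.2.2) (l := fun z => z) (s := fun _ => 0)
      PT.id (PT.const 0) (PT.zadd (PT.fst.comp PT.snd) (PT.snd.comp PT.snd))
      (4 * Polynomial.X + 5) ?_
    intro a l' hl'
    have e : l'.foldl (fun s z => s + z) 0 = l'.sum := (List.sum_eq_foldl).symm
    show sz (l'.foldl (fun s z => s + z) 0) ≤ _
    rw [e]
    refine (sz_int_le _).trans ?_
    have h2 := natAbs_sum_bits l'
    have h3 := sz_prefix hl'
    simp only [Polynomial.eval_add, Polynomial.eval_mul, Polynomial.eval_X,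
      Polynomial.eval_ofNat]
    omega
  exact (h1.comp hl).congr fun a => (List.sum_eq_foldl).symm

/-- partial sums: the `j`-th entry is the sum of the first `j` elements -/
theorem PT.zprefix {l : α → List ℤ} (hl : PT l) :
    PT (fun a => (List.range ((l a).length + 1)).map fun j => ((l a).take j).sum) :=
  PT.map (g := fun x : α × ℕ => ((l x.1).take x.2).sum) hl.length.succ.range
    (PT.zsum (PT.take (hl.comp PT.fst) PT.snd))

end PTime
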