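import Pool.Agent.Work.MP_aff8ab_lc.P.CLDefs

/-!
# SAT reduces to PARTITION
-/

namespace PTime

open Finset

/-! ### signed sums of lists -/

/-- `s` is a signed sum of the list `l` -/
def SS : List ℤ → ℤ → Prop
  | [], s => s = 0
  | a :: l, s => SS l (s - a) ∨ SS l (s + a)

theorem SS_append (l l' : List ℤ) (s : ℤ) :
    SS (l ++ l') s ↔ ∃ t, SS l t ∧ SS l' (s - t) := by
  induction l generalizing s with
  | nil =>
    constructor
    · intro h
      exact ⟨0, rfl, by simpa using h⟩
    · rintro ⟨t, ht, h⟩
      have ht' : t = 0 := ht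
      subst ht'
      simpa using h
  | cons a l ih =>
    simp only [List.cons_append, SS]
    constructor
    · rintro (h | h)
      · obtain ⟨t, ht, h⟩ := (ih _).1 h
        exact ⟨t + a, Or.inl (by simpa using ht), by rwa [show s - (t + a) = s - a - t by ring]⟩
      · obtain ⟨t, ht, h⟩ := (ih _).1 h
        exact ⟨t - a, Or.inr (by simpa using ht), by rwa [show s - (t - a) = s + a - t by ring]⟩
    · rintro ⟨t, (ht | ht), h⟩
      · exact Or.inl ((ih _).2 ⟨t - a, ht, by rwa [show s - a - (t - a) = s - t by ring]⟩)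
      · exact Or.inr ((ih _).2 ⟨t + a, ht, by rwa [show s + a - (t + a) = s - t by ring]⟩)

theorem partition_iff_SS (l : List ℤ) : Partition l ↔ SS l 0 := by
  have key : ∀ (l : List ℤ) (s : ℤ), SS l s ↔ ∃ e : ℕ → Bool,
      ∑ i ∈ range l.length, (if e i = true then l.getD i 0 else -l.getD i 0) = s := by
    intro l
    induction l with
    | nil =>
      intro s
      simp only [SS, List.length_nil, range_zero, sum_empty]
      exact ⟨fun h => ⟨fun _ => true, h.symm⟩, fun ⟨_, h⟩ => h.symm⟩
    | cons a l ih =>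
      intro s
      simp only [SS, ih, List.length_cons]
      constructor
      · rintro (⟨e, he⟩ | ⟨e, he⟩)
        · refine ⟨fun i => if i = 0 then true else e (i - 1), ?_⟩
          rw [sum_range_succ']
          simp only [Nat.add_eq_zero_iff, one_ne_zero, and_false, if_false, Nat.add_sub_cancel,
            List.getD_cons_succ, List.getD_cons_zero, if_true]
          rw [he]
          ring
        · refine ⟨fun i => if i = 0 then false else e (i - 1), ?_⟩
          rw [sum_range_succ']
          simp only [Nat.add_eq_zero_iff, one_ne_zero, and_false, if_false, Nat.add_sub_cancel,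
            List.getD_cons_succ, List.getD_cons_zero, if_true, Bool.false_eq_true]
          rw [he]
          ring
      · rintro ⟨e, he⟩
        rw [sum_range_succ'] at he
        simp only [List.getD_cons_succ, List.getD_cons_zero] at he
        by_cases h0 : e 0 = true
        · rw [if_pos h0] at he
          exact Or.inl ⟨fun i => e (i + 1), by rw [← he]; ring⟩
        · rw [if_neg h0] at he
          exact Or.inr ⟨fun i => e (i + 1), by rw [← he]; ring⟩
  exact (key l 0).symm

/-- signed sums of `f 0, ..., f (k - 1)` -/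
theorem SS_map_range (f : ℕ → ℤ) (k : ℕ) (s : ℤ) :
    SS ((List.range k).map f) s ↔ ∃ e : ℕ → Bool,
      s = ∑ i ∈ range k, (if e i = true then f i else -f i) := by
  induction k generalizing s with
  | zero =>
    simp only [List.range_zero, List.map_nil, SS, range_zero, sum_empty]
    exact ⟨fun h => ⟨fun _ => true, h⟩, fun ⟨_, h⟩ => h⟩
  | succ k ih =>
    rw [List.range_succ, List.map_append, SS_append]
    constructor
    · rintro ⟨t, ht, h⟩
      obtain ⟨e, he⟩ := (ih t).1 ht
      have h' : s - t = f k ∨ s - t = -f k := by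
        rcases h with h | h
        · left
          have : s - t - f k = 0 := h
          linarith
        · right
          have : s - t + f k = 0 := h
          linarith
      rcases h' with h | h
      · refine ⟨fun i => if i = k then true else e i, ?_⟩
        rw [sum_range_succ, if_pos (by simp)]
        rw [sum_congr rfl (g := fun i => if e i = true then f i else -f i) (fun i hi => by
          rw [mem_range] at hi
          have h9 : ¬ i = k := by omega
          simp only [if_neg h9])]
        rw [← he]
        linarith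
      · refine ⟨fun i => if i = k then false else e i, ?_⟩
        rw [sum_range_succ, if_neg (c := (if k = k then false else e k) = true) (by simp)]
        rw [sum_congr rfl (g := fun i => if e i = true then f i else -f i) (fun i hi => by
          rw [mem_range] at hi
          have h9 : ¬ i = k := by omega
          simp only [if_neg h9])]
        rw [← he]
        linarith
    · rintro ⟨e, he⟩
      rw [sum_range_succ] at he
      refine ⟨_, (ih _).2 ⟨e, rfl⟩, ?_⟩
      by_cases h0 : e k = true
      · rw [if_pos h0] at he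
        left
        show _ - _ - f k = 0
        rw [he]
        ring
      · rw [if_neg h0] at he
        right
        show _ - _ + f k = 0
        rw [he]
        ring

/-- signed sums of `k` copies of `b` -/
theorem SS_copies (b : ℤ) (k : ℕ) (s : ℤ) :
    SS ((List.range k).map fun _ => b) s ↔ ∃ u : ℕ, u ≤ k ∧ s = (2 * (u : ℤ) - k) * b := by
  rw [SS_map_range]
  constructor
  · rintro ⟨e, rfl⟩
    refine ⟨((range k).filter fun i => e i = true).card, ?_, ?_⟩
    · exact (card_filter_le _ _).trans (by simp)
    · rw [sum_ite, sum_const, sum_const, nsmul_eq_mul, nsmul_eq_mul]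
      have h1 := card_filter_add_card_filter_not (s := range k) (fun i => e i = true)
      rw [card_range] at h1
      have h2 : (k : ℤ) = (((range k).filter fun i => e i = true).card : ℤ) +
          (((range k).filter fun i => ¬ e i = true).card : ℤ) := by exact_mod_cast h1.symm
      rw [h2]
      ring
  · rintro ⟨u, hu, rfl⟩
    refine ⟨fun i => decide (i < u), ?_⟩
    simp only [decide_eq_true_eq]
    rw [sum_ite, sum_const, sum_const, nsmul_eq_mul, nsmul_eq_mul]
    have h3 : ((range k).filter fun i => i < u) = range u := by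
      ext i
      simp only [mem_filter, mem_range]
      omega
    have h1 := card_filter_add_card_filter_not (s := range k) (fun i => i < u)
    rw [h3, card_range, card_range] at h1
    rw [h3, card_range]
    have h2 : (k : ℤ) = (u : ℤ) + (((range k).filter fun i => ¬ i < u).card : ℤ) := by
      exact_mod_cast h1.symm
    rw [h2]
    ring

/-- signed sums of a concatenation -/
theorem SS_flatMap (g : ℕ → List ℤ) (k : ℕ) (s : ℤ) :
    SS ((List.range k).flatMap g) s ↔ ∃ t : ℕ → ℤ, (∀ j < k, SS (g j) (t j)) ∧
      s = ∑ j ∈ range k, t j := by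
  induction k generalizing s with
  | zero =>
    simp only [List.range_zero, List.flatMap_nil, SS, range_zero, sum_empty]
    exact ⟨fun h => ⟨fun _ => 0, fun j hj => absurd hj (by omega), h⟩, fun ⟨_, _, h⟩ => h⟩
  | succ k ih =>
    rw [List.range_succ, List.flatMap_append, SS_append]
    simp only [List.flatMap_cons, List.flatMap_nil, List.append_nil]
    constructor
    · rintro ⟨t, ht, h⟩
      obtain ⟨t', ht', rfl⟩ := (ih t).1 ht
      refine ⟨fun j => if j = k then s - ∑ j ∈ range k, t' j else t' j, fun j hj => ?_, ?_⟩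
      · by_cases hjk : j = k
        · subst hjk
          simpa using h
        · simp only [if_neg hjk]
          exact ht' j (by omega)
      · rw [sum_range_succ, if_pos rfl]
        rw [sum_congr rfl (g := t') (fun i hi => by
          rw [mem_range] at hi
          rw [if_neg (show ¬ i = k by omega)])]
        ring
    · rintro ⟨t, ht, rfl⟩
      refine ⟨∑ j ∈ range k, t j, (ih _).2 ⟨t, fun j hj => ht j (by omega), rfl⟩, ?_⟩
      rw [sum_range_succ, add_sub_cancel_left]
      exact ht k (by omega)

/-! ### signed digits -/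

theorem digits_zero {B : ℤ} (d : ℕ → ℤ) (p : ℕ) (h : ∀ i < p, |d i| < B)
    (hs : ∑ i ∈ range p, d i * B ^ i = 0) : ∀ i < p, d i = 0 := by
  induction p generalizing d with
  | zero => exact fun i hi => absurd hi (by omega)
  | succ p ih =>
    have h0 : |d 0| < B := h 0 (by omega)
    have hB : 0 < B := lt_of_le_of_lt (abs_nonneg _) h0
    rw [sum_range_succ'] at hs
    have h1 : ∑ i ∈ range p, d (i + 1) * B ^ (i + 1) = B * ∑ i ∈ range p, d (i + 1) * B ^ i := by
      rw [mul_sum]
      exact sum_congr rfl fun i _ => by ring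
    rw [h1, pow_zero, mul_one] at hs
    have h2 : B ∣ d 0 := ⟨-∑ i ∈ range p, d (i + 1) * B ^ i, by linear_combination hs⟩
    have h3 : d 0 = 0 := Int.eq_zero_of_abs_lt_dvd h2 h0
    rw [h3, add_zero] at hs
    have h4 : ∑ i ∈ range p, d (i + 1) * B ^ i = 0 := (mul_eq_zero.1 hs).resolve_left hB.ne'
    intro i hi
    rcases i with _ | i
    · exact h3
    · exact ih (fun i => d (i + 1)) (fun i hi => h (i + 1) (by omega)) h4 i (by omega)

theorem list_sum_range (f : ℕ → ℤ) (k : ℕ) : ((List.range k).map f).sum = ∑ i ∈ range k, f i := by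
  induction k with
  | zero => simp
  | succ k ih => rw [List.range_succ, List.map_append, List.sum_append, ih, sum_range_succ]; simp

theorem cnt_le (n : ℕ) (c : ℕ → ℕ → Bool) (j : ℕ) : cnt n c j ≤ 2 * n := by
  unfold cnt
  exact (List.length_filter_le _ _).trans (by simp)

theorem cnt_eq (n : ℕ) (c : ℕ → ℕ → Bool) (j : ℕ) :
    (cnt n c j : ℤ) = ∑ r ∈ range (2 * n), if c r j = true then (1 : ℤ) else 0 := by
  unfold cnt
  generalize 2 * n = k
  induction k with
  | zero => simp
  | succ k ih =>
    rw [List.range_succ, List.filter_append, List.length_append, sum_range_succ, Nat.cast_add, ih]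
    congr 1
    by_cases h : c k j = true
    · simp [h]
    · simp [h]

theorem SS_neg {l : List ℤ} {s : ℤ} (h : SS l s) : SS l (-s) := by
  induction l generalizing s with
  | nil =>
    have h' : s = 0 := h
    show -s = 0
    rw [h', neg_zero]
  | cons a l ih =>
    rcases h with h | h
    · right
      have := ih h
      rwa [neg_sub, sub_eq_neg_add] at this
    · left
      have := ih h
      rwa [neg_add] at this

theorem sum_range_two_mul (g : ℕ → ℤ) (n : ℕ) :
    ∑ r ∈ range (2 * n), g r = ∑ v ∈ range n, (g (2 * v) + g (2 * v + 1)) := by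
  induction n with
  | zero => simp
  | succ n ih =>
    rw [show 2 * (n + 1) = 2 * n + 1 + 1 by ring, sum_range_succ, sum_range_succ, sum_range_succ,
      ih]
    ring

theorem bp_eq (n i : ℕ) : bp n i = ((2 : ℤ) ^ (n + 2)) ^ i := by rw [bp, pow_mul]

theorem bp_pos (n i : ℕ) : 0 < bp n i := by rw [bp]; positivity

/-- `1` if the literal `r` is chosen -/
def ch (e : ℕ → Bool) (r : ℕ) : ℤ := if e r = true then 1 else 0

/-- number of chosen literals of the clause `j` -/
def tj (n : ℕ) (c : ℕ → ℕ → Bool) (e : ℕ → Bool) (j : ℕ) : ℤ :=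
  ∑ r ∈ range (2 * n), if c r j = true then ch e r else 0

/-- the digits of half of the difference -/
def dg (n m : ℕ) (c : ℕ → ℕ → Bool) (e : ℕ → Bool) (u : ℕ → ℕ) (i : ℕ) : ℤ :=
  if i < m then tj n c e i + u i - 2 * n else ch e (2 * (i - m)) + ch e (2 * (i - m) + 1) - 1

theorem diff_eq {n : ℕ} (hn : 1 ≤ n) (m : ℕ) (c : ℕ → ℕ → Bool) (e : ℕ → Bool) (u : ℕ → ℕ) :
    (∑ r ∈ range (2 * n), (if e r = true then litN n m c r else -litN n m c r)) +
      (∑ j ∈ range m, (2 * (u j : ℤ) - (2 * n - 1 : ℕ)) * bp n j) - extraN n m c =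
    2 * ∑ i ∈ range (m + n), dg n m c e u i * ((2 : ℤ) ^ (n + 2)) ^ i := by
  have h1 : ∀ r, (if e r = true then litN n m c r else -litN n m c r) =
      (2 * ch e r - 1) * bp n (m + r / 2) +
        ∑ j ∈ range m, (if c r j = true then (2 * ch e r - 1) else 0) * bp n j := by
    intro r
    have h2 : (if e r = true then litN n m c r else -litN n m c r) =
        (2 * ch e r - 1) * litN n m c r := by
      unfold ch
      split_ifs <;> ring
    rw [h2, litN, list_sum_range, mul_add, mul_sum]
    congr 1
    refine sum_congr rfl fun j _ => ?_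
    split_ifs <;> ring
  have h3 : ∑ r ∈ range (2 * n), (if e r = true then litN n m c r else -litN n m c r) =
      (∑ v ∈ range n, (2 * (ch e (2 * v) + ch e (2 * v + 1) - 1)) * bp n (m + v)) +
        ∑ j ∈ range m, (2 * tj n c e j - cnt n c j) * bp n j := by
    rw [sum_congr rfl fun r _ => h1 r, sum_add_distrib]
    congr 1
    · rw [sum_range_two_mul]
      refine sum_congr rfl fun v _ => ?_
      rw [show 2 * v / 2 = v by omega, show (2 * v + 1) / 2 = v by omega]
      ring
    · rw [sum_comm]
      refine sum_congr rfl fun j _ => ?_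
      rw [← sum_mul]
      congr 1
      rw [cnt_eq, tj, mul_sum, ← sum_sub_distrib]
      refine sum_congr rfl fun r _ => ?_
      split_ifs <;> ring
  rw [h3, extraN, list_sum_range, sum_range_add, mul_add]
  have h4 : ∀ j ∈ range m, dg n m c e u j * ((2 : ℤ) ^ (n + 2)) ^ j =
      (tj n c e j + u j - 2 * n) * bp n j := by
    intro j hj
    rw [mem_range] at hj
    rw [dg, if_pos hj, bp_eq]
  have h5 : ∀ v ∈ range n, dg n m c e u (m + v) * ((2 : ℤ) ^ (n + 2)) ^ (m + v) =
      (ch e (2 * v) + ch e (2 * v + 1) - 1) * bp n (m + v) := by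
    intro v _
    rw [dg, if_neg (by omega), bp_eq, Nat.add_sub_cancel_left]
  rw [sum_congr rfl h4, sum_congr rfl h5, mul_sum, mul_sum, add_assoc, add_sub_assoc,
    add_comm (∑ i ∈ range m, 2 * _)]
  congr 1
  · exact sum_congr rfl fun v _ => by ring
  · rw [← sum_add_distrib, ← sum_sub_distrib]
    refine sum_congr rfl fun j _ => ?_
    have h6 := cnt_le n c j
    push_cast [Nat.cast_sub (show 1 ≤ 2 * n by omega), Nat.cast_sub (show cnt n c j ≤ 2 * n + 1 by omega)]
    ring

theorem ch_nonneg (e : ℕ → Bool) (r : ℕ) : 0 ≤ ch e r := by unfold ch; split_ifs <;> norm_num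

theorem ch_le (e : ℕ → Bool) (r : ℕ) : ch e r ≤ 1 := by unfold ch; split_ifs <;> norm_num

theorem tj_nonneg (n : ℕ) (c : ℕ → ℕ → Bool) (e : ℕ → Bool) (j : ℕ) : 0 ≤ tj n c e j := by
  refine sum_nonneg fun r _ => ?_
  split_ifs
  · exact ch_nonneg e r
  · exact le_rfl

theorem tj_le (n : ℕ) (c : ℕ → ℕ → Bool) (e : ℕ → Bool) (j : ℕ) : tj n c e j ≤ 2 * n := by
  have h : tj n c e j ≤ ∑ r ∈ range (2 * n), (1 : ℤ) := by
    refine sum_le_sum fun r _ => ?_
    split_ifs
    · exact ch_le e r
    · exact zero_le_one
  simpa using h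

theorem dg_lt {n : ℕ} (hn : 1 ≤ n) (m : ℕ) (c : ℕ → ℕ → Bool) (e : ℕ → Bool) {u : ℕ → ℕ}
    (hu : ∀ j < m, u j ≤ 2 * n - 1) (i : ℕ) : |dg n m c e u i| < (2 : ℤ) ^ (n + 2) := by
  have h1 : (n : ℤ) < 2 ^ n := by exact_mod_cast n.lt_two_pow_self
  have h2 : (2 : ℤ) ^ (n + 2) = 4 * 2 ^ n := by rw [pow_add]; ring
  have hn' : (1 : ℤ) ≤ n := by exact_mod_cast hn
  unfold dg
  split_ifs with h
  · have h3 := tj_nonneg n c e i
    have h4 := tj_le n c e i
    have h5 : (u i : ℤ) ≤ 2 * n := by
      have := hu i h
      omega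
    rw [abs_lt]
    constructor <;> linarith [Int.natCast_nonneg (u i)]
  · have h3 := ch_nonneg e (2 * (i - m))
    have h4 := ch_le e (2 * (i - m))
    have h5 := ch_nonneg e (2 * (i - m) + 1)
    have h6 := ch_le e (2 * (i - m) + 1)
    rw [abs_lt]
    constructor <;> linarith

theorem partition_nums {n : ℕ} (hn : 1 ≤ n) (m : ℕ) (c : ℕ → ℕ → Bool) :
    Partition (nums n m c) ↔ ∃ (e : ℕ → Bool) (u : ℕ → ℕ), (∀ j < m, u j ≤ 2 * n - 1) ∧
      ∀ i < m + n, dg n m c e u i = 0 := by
  rw [partition_iff_SS, nums, SS_append]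
  have h1 : (∃ t, SS ((List.range (2 * n)).map (litN n m c) ++
      ((List.range m).flatMap fun j => (List.range (2 * n - 1)).map fun _ => bp n j)) t ∧
      SS [extraN n m c] (0 - t)) ↔ SS ((List.range (2 * n)).map (litN n m c) ++
      ((List.range m).flatMap fun j => (List.range (2 * n - 1)).map fun _ => bp n j))
      (extraN n m c) := by
    constructor
    · rintro ⟨t, ht, h | h⟩
      · have h' : 0 - t - extraN n m c = 0 := h
        have h2 := SS_neg ht
        rwa [show -t = extraN n m c by linarith] at h2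
      · have h' : 0 - t + extraN n m c = 0 := h
        rwa [show t = extraN n m c by linarith] at ht
    · intro h
      refine ⟨_, h, Or.inr ?_⟩
      show 0 - extraN n m c + extraN n m c = 0
      ring
  rw [h1, SS_append]
  constructor
  · rintro ⟨t, ht, h⟩
    obtain ⟨e, rfl⟩ := (SS_map_range _ _ _).1 ht
    obtain ⟨t', ht', h⟩ := (SS_flatMap _ _ _).1 h
    have h2 : ∀ j, ∃ u : ℕ, j < m → u ≤ 2 * n - 1 ∧
        t' j = (2 * (u : ℤ) - (2 * n - 1 : ℕ)) * bp n j := by
      intro j
      by_cases hj : j < m
      · obtain ⟨u, hu1, hu2⟩ := (SS_copies _ _ _).1 (ht' j hj)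
        exact ⟨u, fun _ => ⟨hu1, hu2⟩⟩
      · exact ⟨0, fun h => absurd h hj⟩
    choose u hu using h2
    refine ⟨e, u, fun j hj => (hu j hj).1, ?_⟩
    refine digits_zero (B := (2 : ℤ) ^ (n + 2)) _ _
      (fun i _ => dg_lt hn m c e (fun j hj => (hu j hj).1) i) ?_
    have h3 := diff_eq hn m c e u
    rw [← sum_congr rfl (fun j hj => (hu j (mem_range.1 hj)).2), ← h] at h3
    have h4 : (2 : ℤ) * ∑ i ∈ range (m + n), dg n m c e u i * ((2 : ℤ) ^ (n + 2)) ^ i = 0 := by
      rw [← h3]
      ring
    exact (mul_eq_zero.1 h4).resolve_left two_ne_zero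
  · rintro ⟨e, u, hu, hd⟩
    refine ⟨_, (SS_map_range _ _ _).2 ⟨e, rfl⟩, (SS_flatMap _ _ _).2
      ⟨fun j => (2 * (u j : ℤ) - (2 * n - 1 : ℕ)) * bp n j, fun j hj =>
        (SS_copies _ _ _).2 ⟨u j, hu j hj, rfl⟩, ?_⟩⟩
    have h3 := diff_eq hn m c e u
    have h5 : ∑ i ∈ range (m + n), dg n m c e u i * ((2 : ℤ) ^ (n + 2)) ^ i = 0 :=
      sum_eq_zero (fun i hi => by rw [hd i (mem_range.1 hi), zero_mul])
    rw [h5, mul_zero] at h3
    linarith

/-- the satisfiability problem of a table reduces to PARTITION -/
theorem nums_iff {n : ℕ} (hn : 1 ≤ n) (m : ℕ) (c : ℕ → ℕ → Bool) :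
    SatTab n m c ↔ Partition (nums n m c) := by
  rw [partition_nums hn]
  constructor
  · rintro ⟨x, hx⟩
    obtain ⟨e, he⟩ : ∃ e : ℕ → Bool, e = fun r => decide (x (r / 2) = decide (r % 2 = 0)) :=
      ⟨_, rfl⟩
    have hpos : ∀ j < m, 1 ≤ tj n c e j := by
      intro j hj
      obtain ⟨r, hr, h1, h2⟩ := hx j hj
      have h3 : (if c r j = true then ch e r else 0) = 1 := by
        rw [if_pos h1, ch, he, if_pos (decide_eq_true h2)]
      rw [← h3]
      refine single_le_sum (f := fun r => if c r j = true then ch e r else 0) (fun i _ => ?_)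
        (mem_range.2 hr)
      show 0 ≤ if c i j = true then ch e i else 0
      split_ifs
      · exact ch_nonneg e i
      · exact le_rfl
    refine ⟨e, fun j => (2 * n - tj n c e j).toNat, fun j hj => ?_, fun i hi => ?_⟩
    · have h1 := hpos j hj
      have h2 := tj_le n c e j
      show (2 * (n : ℤ) - tj n c e j).toNat ≤ 2 * n - 1
      omega
    · unfold dg
      split_ifs with h
      · have h2 := tj_le n c e i
        rw [Int.toNat_of_nonneg (by linarith)]
        ring
      · rw [ch, ch, he]
        simp only [show 2 * (i - m) / 2 = i - m by omega, show (2 * (i - m) + 1) / 2 = i - m by omega,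
          show 2 * (i - m) % 2 = 0 by omega, show (2 * (i - m) + 1) % 2 = 1 by omega]
        cases x (i - m) <;> simp
  · rintro ⟨e, u, hu, hd⟩
    refine ⟨fun v => e (2 * v), fun j hj => ?_⟩
    have h1 := hd j (by omega)
    rw [dg, if_pos hj] at h1
    have h2 := hu j hj
    have h3 : 1 ≤ tj n c e j := by omega
    have h4 : ∃ r < 2 * n, c r j = true ∧ e r = true := by
      by_contra hcon
      push Not at hcon
      have : tj n c e j = 0 := by
        refine sum_eq_zero fun r hr => ?_
        split_ifs with h5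
        · rw [ch, if_neg (hcon r (mem_range.1 hr) h5)]
        · rfl
      omega
    obtain ⟨r, hr, hc, her⟩ := h4
    refine ⟨r, hr, hc, ?_⟩
    show e (2 * (r / 2)) = decide (r % 2 = 0)
    have h5 := hd (m + r / 2) (by omega)
    rw [dg, if_neg (by omega), Nat.add_sub_cancel_left] at h5
    rcases Nat.mod_two_eq_zero_or_one r with h6 | h6
    · rw [show 2 * (r / 2) = r by omega, her, h6]
      rfl
    · have h7 : 2 * (r / 2) + 1 = r := by omega
      rw [h7] at h5
      have h8 : ch e r = 1 := by rw [ch, if_pos her]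
      have h9 : ch e (2 * (r / 2)) = 0 := by linarith
      rw [h6]
      show e (2 * (r / 2)) = false
      cases hq : e (2 * (r / 2)) with
      | false => rfl
      | true =>
        rw [ch, if_pos hq] at h9
        exact absurd h9 one_ne_zero

theorem litN_pos (n m : ℕ) (c : ℕ → ℕ → Bool) (r : ℕ) : 0 < litN n m c r := by
  rw [litN, list_sum_range]
  refine add_pos_of_pos_of_nonneg (bp_pos _ _) (sum_nonneg fun j _ => ?_)
  split_ifs
  · exact (bp_pos _ _).le
  · exact le_rfl

theorem extraN_pos (n : ℕ) {m : ℕ} (hm : 1 ≤ m) (c : ℕ → ℕ → Bool) : 0 < extraN n m c := by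
  rw [extraN, list_sum_range]
  refine sum_pos (fun j _ => ?_) ⟨0, mem_range.2 hm⟩
  have h := cnt_le n c j
  have h1 : (0 : ℤ) < ((2 * n + 1 - cnt n c j : ℕ) : ℤ) := by
    have : 0 < 2 * n + 1 - cnt n c j := by omega
    exact_mod_cast this
  exact mul_pos h1 (bp_pos _ _)

theorem nums_pos (n : ℕ) {m : ℕ} (hm : 1 ≤ m) (c : ℕ → ℕ → Bool) : ∀ a ∈ nums n m c, 0 < a := by
  intro a ha
  rw [nums, List.mem_append, List.mem_append, List.mem_map, List.mem_flatMap,
    List.mem_singleton] at ha
  rcases ha with (⟨r, -, rfl⟩ | ⟨j, -, hj⟩) | rfl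
  · exact litN_pos n m c r
  · obtain ⟨i, -, rfl⟩ := List.mem_map.1 hj
    exact bp_pos _ _
  · exact extraN_pos n hm c

theorem partR_iff (φ : CNF) : Sat φ ↔ Partition (partR φ) := by
  rw [sat_iff_table]
  exact nums_iff (nV_pos φ) _ _

theorem partR_pos (φ : CNF) : ∀ a ∈ partR φ, 0 < a := nums_pos _ (nC_pos φ) _

theorem partR_ne_nil (φ : CNF) : partR φ ≠ [] := by
  unfold partR nums
  simp

end PTime
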