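import Pool.Agent.Work.MP_aff8ab_lc.P.PBin
import Pool.Agent.Work.MP_aff8ab_lc.P.Part

/-! PARTITION of positive integers in binary is NP-hard (polynomial time many-one reductions):
the reduction is computed in polynomial time. -/

namespace PTime

variable {α : Type} [Code α]

theorem pt_bp {φ : α → CNF} {k : α → ℕ} (hφ : PT φ) (hk : PT k) :
    PT (fun a => bp (nV (φ a)) (k a)) :=
  PT.zpow2 (PT.mul ((PT.nV'.comp hφ).add (PT.const 2)) hk)

theorem pt_litN {φ : α → CNF} {r : α → ℕ} (hφ : PT φ) (hr : PT r) :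
    PT (fun a => litN (nV (φ a)) (nC (φ a)) (occ (φ a)) (r a)) := by
  have h1 : PT (fun a => (List.range (nC (φ a))).map fun j =>
      if occ (φ a) (r a) j = true then bp (nV (φ a)) j else 0) := by
    refine PT.map (g := fun x : α × ℕ =>
      if occ (φ x.1) (r x.1) x.2 = true then bp (nV (φ x.1)) x.2 else 0)
      (PT.range (PT.nC'.comp hφ)) ?_
    have ho : PT (fun x : α × ℕ => occ (φ x.1) (r x.1) x.2) :=
      PT.occ' (hφ.comp PT.fst) (hr.comp PT.fst) PT.snd
    exact PT.ite (P := fun x : α × ℕ => occ (φ x.1) (r x.1) x.2 = true)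
      (ho.congr fun x => by simp) (pt_bp (hφ.comp PT.fst) PT.snd)
      (PT.const 0)
  exact PT.zadd (pt_bp hφ ((PT.nC'.comp hφ).add (hr.div (PT.const 2)))) (PT.zsum h1)

theorem pt_cnt {φ : α → CNF} {j : α → ℕ} (hφ : PT φ) (hj : PT j) :
    PT (fun a => cnt (nV (φ a)) (occ (φ a)) (j a)) :=
  PT.length (PT.filter (p := fun x : α × ℕ => occ (φ x.1) x.2 (j x.1))
    (PT.range ((PT.const 2).mul (PT.nV'.comp hφ)))
    (PT.occ' (hφ.comp PT.fst) PT.snd (hj.comp PT.fst)))

theorem pt_extraN {φ : α → CNF} (hφ : PT φ) :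
    PT (fun a => extraN (nV (φ a)) (nC (φ a)) (occ (φ a))) :=
  PT.zsum (PT.map (g := fun x : α × ℕ =>
    ((2 * nV (φ x.1) + 1 - cnt (nV (φ x.1)) (occ (φ x.1)) x.2 : ℕ) : ℤ) * bp (nV (φ x.1)) x.2)
    (PT.range (PT.nC'.comp hφ))
    (PT.zmul (PT.intCast ((((PT.const 2).mul (PT.nV'.comp (hφ.comp PT.fst))).add
      (PT.const 1)).sub (pt_cnt (hφ.comp PT.fst) PT.snd))) (pt_bp (hφ.comp PT.fst) PT.snd)))

/-- the reduction is computed in polynomial time -/
theorem pt_partR : PT partR := by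
  have h1 : PT (fun φ : CNF => (List.range (2 * nV φ)).map (litN (nV φ) (nC φ) (occ φ))) :=
    PT.map (g := fun x : CNF × ℕ => litN (nV x.1) (nC x.1) (occ x.1) x.2)
      (PT.range ((PT.const 2).mul PT.nV')) (pt_litN PT.fst PT.snd)
  have h2 : PT (fun φ : CNF => (List.range (nC φ)).flatMap fun j =>
      (List.range (2 * nV φ - 1)).map fun _ => bp (nV φ) j) :=
    PT.flatMap (g := fun x : CNF × ℕ => (List.range (2 * nV x.1 - 1)).map fun _ => bp (nV x.1) x.2)
      (PT.range PT.nC')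
      (PT.map (g := fun y : (CNF × ℕ) × ℕ => bp (nV y.1.1) y.1.2)
        (PT.range (((PT.const 2).mul (PT.nV'.comp PT.fst)).sub (PT.const 1)))
        (pt_bp (PT.fst.comp PT.fst) (PT.snd.comp PT.fst)))
  exact (h1.append h2).append ((pt_extraN PT.id).cons (PT.const []))

/-- every language in NP reduces in polynomial time to PARTITION, with nonempty lists of positive
integers -/
theorem part_hard {L : Set (List Bool)} (hL : InNP L) :
    ∃ g : List Bool → List ℤ, PT g ∧ (∀ x, x ∈ L ↔ Partition (g x)) ∧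
      ∀ x, (∀ a ∈ g x, 0 < a) ∧ g x ≠ [] := by
  obtain ⟨f, hf, hfL⟩ := cookLevin hL
  exact ⟨fun x => partR (f x), pt_partR.comp hf, fun x => (hfL x).trans (partR_iff _),
    fun x => ⟨partR_pos _, partR_ne_nil _⟩⟩

end PTime
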