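import Mathlib

/-! Signed sums of a list of integers, and satisfiability of a clause table as the vanishing
of a signed sum of positive integers. -/

namespace Pool.Agent.MP_aff8ab_lc.CL

open Finset

/-- `t` is the sum of the members of the list with suitable signs -/
def Signed : List ℤ → ℤ → Prop
  | [], t => t = 0
  | a :: l, t => Signed l (t - a) ∨ Signed l (t + a)

/-- the sign of a bit -/
def sg (b : Bool) : ℤ := if b then 1 else -1

theorem signed_append (l l' : List ℤ) (t : ℤ) :
    Signed (l ++ l') t ↔ ∃ s, Signed l s ∧ Signed l' (t - s) := by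
  induction l generalizing t with
  | nil => simp [Signed]
  | cons a l ih =>
    simp only [List.cons_append, Signed, ih]
    constructor
    · rintro (⟨s, h, h'⟩ | ⟨s, h, h'⟩)
      · exact ⟨s + a, Or.inl (by simpa using h), by rwa [show t - (s + a) = t - a - s by ring]⟩
      · exact ⟨s - a, Or.inr (by simpa using h), by rwa [show t - (s - a) = t + a - s by ring]⟩
    · rintro ⟨s, h | h, h'⟩
      · exact Or.inl ⟨s - a, h, by rwa [show t - a - (s - a) = t - s by ring]⟩
      · exact Or.inr ⟨s + a, h, by rwa [show t + a - (s + a) = t - s by ring]⟩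

theorem signed_flatMap {ι : Type} (L : List ι) (hL : L.Nodup) (g : ι → List ℤ) (t : ℤ) :
    Signed (L.flatMap g) t ↔ ∃ τ : ι → ℤ, (∀ i ∈ L, Signed (g i) (τ i)) ∧ (L.map τ).sum = t := by
  classical
  induction L generalizing t with
  | nil => simp [Signed, eq_comm]
  | cons a l ih =>
    have hn := List.nodup_cons.1 hL
    rw [List.flatMap_cons, signed_append]
    constructor
    · rintro ⟨s, hs, h⟩
      obtain ⟨τ, h1, h2⟩ := (ih hn.2 _).1 h
      have hne : ∀ i ∈ l, Function.update τ a s i = τ i := fun i hi =>
        Function.update_of_ne (fun h : i = a => hn.1 (h ▸ hi)) _ _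
      refine ⟨Function.update τ a s, ?_, ?_⟩
      · intro i hi
        rcases List.mem_cons.1 hi with rfl | hi
        · simpa using hs
        · rw [hne i hi]; exact h1 i hi
      · rw [List.map_cons, List.sum_cons, List.map_congr_left hne, h2, Function.update_self]
        ring
    · rintro ⟨τ, h1, h2⟩
      refine ⟨τ a, h1 a (by simp), (ih hn.2 _).2 ⟨τ, fun i hi => h1 i (by simp [hi]), ?_⟩⟩
      rw [← h2, List.map_cons, List.sum_cons]
      ring

theorem signed_single (a t : ℤ) : Signed [a] t ↔ ∃ b : Bool, sg b * a = t := by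
  constructor
  · rintro (h | h)
    · exact ⟨true, by simp only [Signed] at h; simp [sg]; omega⟩
    · exact ⟨false, by simp only [Signed] at h; simp [sg]; omega⟩
  · rintro ⟨b, h⟩
    cases b
    · right; simp only [sg, Signed] at h ⊢; simp at h; omega
    · left; simp only [sg, Signed] at h ⊢; simp at h; omega

theorem signed_map {ι : Type} (L : List ι) (hL : L.Nodup) (f : ι → ℤ) (t : ℤ) :
    Signed (L.map f) t ↔ ∃ e : ι → Bool, (L.map fun i => sg (e i) * f i).sum = t := by
  have : L.map f = L.flatMap fun i => [f i] := by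
    induction L with
    | nil => rfl
    | cons a l ih => rw [List.map_cons, List.flatMap_cons, ih (List.nodup_cons.1 hL).2]; rfl
  rw [this, signed_flatMap L hL]
  constructor
  · rintro ⟨τ, h1, h2⟩
    have : ∀ i, ∃ b : Bool, i ∈ L → sg b * f i = τ i := by
      intro i
      by_cases hi : i ∈ L
      · obtain ⟨b, hb⟩ := (signed_single _ _).1 (h1 i hi)
        exact ⟨b, fun _ => hb⟩
      · exact ⟨true, fun h => absurd h hi⟩
    choose e he using this
    exact ⟨e, by rw [← h2, List.map_congr_left he]⟩
  · rintro ⟨e, he⟩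
    exact ⟨_, fun i _ => (signed_single _ _).2 ⟨e i, rfl⟩, he⟩

theorem sum_range_list (f : ℕ → ℤ) (n : ℕ) :
    ((List.range n).map f).sum = ∑ i ∈ range n, f i := by
  induction n with
  | zero => simp
  | succ n ih => rw [List.range_succ, sum_range_succ, ← ih]; simp

theorem sum_filter_list (p : ℕ → Bool) (f : ℕ → ℤ) (n : ℕ) :
    (((List.range n).filter p).map f).sum = ∑ i ∈ range n, if p i then f i else 0 := by
  induction n with
  | zero => simp
  | succ n ih =>
    rw [List.range_succ, sum_range_succ, ← ih, List.filter_append]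
    cases h : p n <;> simp [h]

/-- the weight of the position `k` -/
def wt (w k : ℕ) : ℤ := 2 ^ (w * k)

/-- the weights of the clauses containing the literal `r` -/
def row (w n m : ℕ) (c : ℕ → ℕ → Bool) (r : ℕ) : List ℤ :=
  ((List.range m).filter (c r)).map fun j => wt w (n + j)

/-- the integers coding a clause table with `n` variables and `m` clauses -/
def items (w n m : ℕ) (c : ℕ → ℕ → Bool) : List ℤ :=
  ((List.range (2 * n)).flatMap fun r => (wt w (r / 2) + (row w n m c r).sum) :: row w n m c r) ++
    [2 * ((List.range m).map fun j => wt w (n + j)).sum]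

/-- a clause table with a satisfying assignment -/
def TabSat (n m : ℕ) (c : ℕ → ℕ → Bool) : Prop :=
  ∃ x : ℕ → Bool, ∀ j < m, ∃ r < 2 * n, c r j = true ∧ x (r / 2) = decide (r % 2 = 0)

/-- the digit of the position `k` -/
def dig (n : ℕ) (c : ℕ → ℕ → Bool) (e : ℕ → Bool) (δ : ℕ → ℕ → Bool) (q : Bool) (k : ℕ) : ℤ :=
  if k < n then sg (e (2 * k)) + sg (e (2 * k + 1))
  else (∑ r ∈ range (2 * n), if c r (k - n) then sg (e r) + sg (δ r (k - n)) else 0) + 2 * sg q

theorem sum_two (n : ℕ) (f : ℕ → ℤ) :
    ∑ r ∈ range (2 * n), f r = ∑ k ∈ range n, (f (2 * k) + f (2 * k + 1)) := by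
  induction n with
  | zero => simp
  | succ n ih =>
    rw [show 2 * (n + 1) = 2 * n + 1 + 1 by ring, sum_range_succ, sum_range_succ, ih,
      sum_range_succ]
    ring

theorem signed_items (w n m : ℕ) (c : ℕ → ℕ → Bool) (t : ℤ) :
    Signed (items w n m c) t ↔ ∃ (e : ℕ → Bool) (δ : ℕ → ℕ → Bool) (q : Bool),
      ∑ k ∈ range (n + m), dig n c e δ q k * wt w k = t := by
  have key : ∀ (e : ℕ → Bool) (δ : ℕ → ℕ → Bool) (q : Bool),
      ∑ k ∈ range (n + m), dig n c e δ q k * wt w k =
      ∑ r ∈ range (2 * n), (sg (e r) * (wt w (r / 2) + ∑ j ∈ range m,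
        if c r j then wt w (n + j) else 0) + ∑ j ∈ range m,
          if c r j then sg (δ r j) * wt w (n + j) else 0) +
      sg q * (2 * ∑ j ∈ range m, wt w (n + j)) := by
    intro e δ q
    rw [sum_range_add]
    have h1 : ∑ k ∈ range n, dig n c e δ q k * wt w k =
        ∑ r ∈ range (2 * n), sg (e r) * wt w (r / 2) := by
      rw [sum_two]
      refine sum_congr rfl fun k hk => ?_
      rw [dig, if_pos (mem_range.1 hk), show 2 * k / 2 = k by omega,
        show (2 * k + 1) / 2 = k by omega]
      ring
    have h2 : ∑ j ∈ range m, dig n c e δ q (n + j) * wt w (n + j) =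
        (∑ r ∈ range (2 * n), ∑ j ∈ range m,
          (if c r j then (sg (e r) + sg (δ r j)) * wt w (n + j) else 0)) +
        sg q * (2 * ∑ j ∈ range m, wt w (n + j)) := by
      rw [sum_comm, mul_sum, mul_sum, ← sum_add_distrib]
      refine sum_congr rfl fun j _ => ?_
      rw [dig, if_neg (by omega), show n + j - n = j by omega, add_mul, sum_mul]
      congr 1
      · exact sum_congr rfl fun r _ => by split_ifs <;> ring
      · ring
    rw [h1, h2, ← add_assoc, ← sum_add_distrib]
    congr 1
    refine sum_congr rfl fun r _ => ?_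
    rw [mul_add, add_assoc, mul_sum, ← sum_add_distrib]
    congr 1
    exact sum_congr rfl fun j _ => by split_ifs <;> ring
  unfold items
  rw [signed_append]
  constructor
  · rintro ⟨s, h1, h2⟩
    obtain ⟨τ, h3, h4⟩ := (signed_flatMap _ List.nodup_range _ _).1 h1
    obtain ⟨q, hq⟩ := (signed_single _ _).1 h2
    have h5 : ∀ r, ∃ (b : Bool) (d : ℕ → Bool), r < 2 * n →
        sg b * (wt w (r / 2) + ∑ j ∈ range m, if c r j then wt w (n + j) else 0) +
          (∑ j ∈ range m, if c r j then sg (d j) * wt w (n + j) else 0) = τ r := by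
      intro r
      by_cases hr : r < 2 * n
      · have h6 := h3 r (List.mem_range.2 hr)
        rw [← List.singleton_append, signed_append] at h6
        obtain ⟨s', h7, h8⟩ := h6
        obtain ⟨b, hb⟩ := (signed_single _ _).1 h7
        obtain ⟨d, hd⟩ := (signed_map _ (List.nodup_range.filter _) _ _).1 h8
        refine ⟨b, d, fun _ => ?_⟩
        rw [sum_filter_list] at hd
        rw [row, sum_filter_list] at hb
        rw [hd, hb]
        ring
      · exact ⟨true, fun _ => true, fun h => absurd h hr⟩
    choose e δ h6 using h5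
    refine ⟨e, δ, q, ?_⟩
    rw [key]
    rw [sum_range_list] at h4 hq
    rw [sum_congr rfl fun r hr => h6 r (mem_range.1 hr), h4, hq]
    ring
  · rintro ⟨e, δ, q, h⟩
    rw [key] at h
    refine ⟨_, (signed_flatMap _ List.nodup_range _ _).2 ⟨fun r =>
      sg (e r) * (wt w (r / 2) + ∑ j ∈ range m, if c r j then wt w (n + j) else 0) +
        ∑ j ∈ range m, if c r j then sg (δ r j) * wt w (n + j) else 0, fun r _ => ?_, rfl⟩,
      (signed_single _ _).2 ⟨q, ?_⟩⟩
    · rw [← List.singleton_append, signed_append]
      refine ⟨_, (signed_single _ _).2 ⟨e r, rfl⟩,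
        (signed_map _ (List.nodup_range.filter _) _ _).2 ⟨δ r, ?_⟩⟩
      rw [row, sum_filter_list, sum_filter_list]
      ring
    · rw [sum_range_list, sum_range_list, ← h]
      ring

theorem digits_zero (B : ℤ) (N : ℕ) (d : ℕ → ℤ) (hd : ∀ k < N, |d k| < B)
    (h : ∑ k ∈ range N, d k * B ^ k = 0) : ∀ k < N, d k = 0 := by
  induction N generalizing d with
  | zero => intro k hk; omega
  | succ N ih =>
    rw [sum_range_succ'] at h
    have e : ∑ k ∈ range N, d (k + 1) * B ^ (k + 1) = B * ∑ k ∈ range N, d (k + 1) * B ^ k := by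
      rw [mul_sum]
      exact sum_congr rfl fun k _ => by ring
    rw [e, pow_zero, mul_one] at h
    have h0 : d 0 = 0 := by
      refine Int.eq_zero_of_abs_lt_dvd (m := B) ?_ (hd 0 (by omega))
      exact ⟨-∑ k ∈ range N, d (k + 1) * B ^ k, by linarith⟩
    have hB : B ≠ 0 := by
      have := (abs_nonneg (d 0)).trans_lt (hd 0 (by omega))
      omega
    rw [h0, add_zero] at h
    have h1 := (mul_eq_zero.1 h).resolve_left hB
    have h2 := ih (fun k => d (k + 1)) (fun k hk => hd (k + 1) (by omega)) h1
    intro k hk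
    cases k with
    | zero => exact h0
    | succ k => exact h2 k (by omega)

theorem abs_sg (b : Bool) : |sg b| = 1 := by cases b <;> simp [sg]

theorem abs_dig (n : ℕ) (c : ℕ → ℕ → Bool) (e : ℕ → Bool) (δ : ℕ → ℕ → Bool) (q : Bool) (k : ℕ) :
    |dig n c e δ q k| ≤ 4 * n + 2 := by
  unfold dig
  split_ifs with hk
  · have := abs_add_le (sg (e (2 * k))) (sg (e (2 * k + 1)))
    rw [abs_sg, abs_sg] at this
    omega
  · refine (abs_add_le _ _).trans ?_
    have h1 : |2 * sg q| = 2 := by rw [abs_mul, abs_sg]; rfl
    rw [h1]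
    have h2 : |∑ r ∈ range (2 * n), if c r (k - n) then sg (e r) + sg (δ r (k - n)) else 0| ≤
        ∑ r ∈ range (2 * n), (2 : ℤ) := by
      refine (abs_sum_le_sum_abs _ _).trans (sum_le_sum fun r _ => ?_)
      split_ifs
      · have := abs_add_le (sg (e r)) (sg (δ r (k - n)))
        rw [abs_sg, abs_sg] at this
        exact this
      · simp
    rw [sum_const, card_range, nsmul_eq_mul] at h2
    push_cast at h2
    linarith

theorem signed_items_iff (w n m : ℕ) (c : ℕ → ℕ → Bool) (hw : 4 * n + 2 < 2 ^ w) :
    Signed (items w n m c) 0 ↔ TabSat n m c := by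
  rw [signed_items]
  have hz : ∀ (e : ℕ → Bool) (δ : ℕ → ℕ → Bool) (q : Bool),
      ∑ k ∈ range (n + m), dig n c e δ q k * wt w k = 0 ↔
        ∀ k < n + m, dig n c e δ q k = 0 := by
    intro e δ q
    constructor
    · intro h
      refine digits_zero (2 ^ w) _ _ (fun k _ => (abs_dig n c e δ q k).trans_lt ?_) ?_
      · exact_mod_cast hw
      · simpa only [wt, pow_mul] using h
    · intro h
      exact sum_eq_zero fun k hk => by rw [h k (mem_range.1 hk), zero_mul]
  simp only [hz]
  constructor
  · rintro ⟨e, δ, q, h⟩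
    refine ⟨fun k => decide (e (2 * k) ≠ q), fun j hj => ?_⟩
    by_contra hcon
    push Not at hcon
    have hq : ∀ r < 2 * n, c r j = true → e r = q := by
      intro r hr hc
      have h1 := hcon r hr hc
      have h2 := h (r / 2) (by omega)
      rw [dig, if_pos (by omega)] at h2
      rcases Nat.mod_two_eq_zero_or_one r with h3 | h3
      · have h4 : 2 * (r / 2) = r := by omega
        rw [h4] at h1
        by_contra h5
        exact h1 (by simp [h3, h5])
      · have h4 : 2 * (r / 2) + 1 = r := by omega
        rw [h4] at h2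
        by_contra h5
        have h6 : e (2 * (r / 2)) = q := by
          by_contra h7
          have h8 : e (2 * (r / 2)) = e r := by
            revert h5 h7
            cases e (2 * (r / 2)) <;> cases e r <;> cases q <;> simp
          rw [h8] at h2
          revert h2
          cases e r <;> simp [sg]
        exact h1 (by simp [h3, h6])
    have h1 := h (n + j) (by omega)
    rw [dig, if_neg (by omega), show n + j - n = j by omega] at h1
    have h2 : 0 ≤ sg q * ∑ r ∈ range (2 * n), (if c r j then sg (e r) + sg (δ r j) else 0) := by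
      rw [mul_sum]
      refine sum_nonneg fun r hr => ?_
      split_ifs with hc
      · rw [hq r (mem_range.1 hr) hc]
        cases q <;> cases δ r j <;> simp [sg]
      · simp
    have h3 : sg q * sg q = 1 := by cases q <;> simp [sg]
    have h4 : sg q * ((∑ r ∈ range (2 * n), if c r j then sg (e r) + sg (δ r j) else 0) +
        2 * sg q) = 0 := by rw [h1, mul_zero]
    nlinarith
  · rintro ⟨x, hx⟩
    have : ∀ j, ∃ r, j < m → r < 2 * n ∧ c r j = true ∧ x (r / 2) = decide (r % 2 = 0) := by
      intro j
      by_cases hj : j < m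
      · obtain ⟨r, h⟩ := hx j hj
        exact ⟨r, fun _ => h⟩
      · exact ⟨0, fun h => absurd h hj⟩
    choose r0 hr0 using this
    refine ⟨fun r => decide (x (r / 2) = decide (r % 2 = 0)),
      fun r j => if r = r0 j then true else !decide (x (r / 2) = decide (r % 2 = 0)), false,
      fun k hk => ?_⟩
    unfold dig
    split_ifs with hkn
    · have h1 : 2 * k / 2 = k := by omega
      have h2 : (2 * k + 1) / 2 = k := by omega
      have h3 : 2 * k % 2 = 0 := by omega
      have h4 : (2 * k + 1) % 2 = 1 := by omega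
      simp only [h1, h2, h3, h4]
      cases x k <;> simp [sg]
    · obtain ⟨hr, hc, hx0⟩ := hr0 (k - n) (by omega)
      rw [sum_eq_single_of_mem (r0 (k - n)) (mem_range.2 hr)]
      · simp [hc, hx0, sg]
      · intro r _ hne
        simp only [if_neg hne]
        split_ifs
        · cases decide (x (r / 2) = decide (r % 2 = 0)) <;> simp [sg]
        · rfl

theorem wt_pos (w k : ℕ) : 0 < wt w k := by unfold wt; positivity

theorem items_pos (w n m : ℕ) (c : ℕ → ℕ → Bool) (hm : 0 < m) : ∀ a ∈ items w n m c, 0 < a := by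
  have hrow : ∀ r, ∀ a ∈ row w n m c r, 0 < a := by
    intro r a ha
    obtain ⟨j, -, rfl⟩ := List.mem_map.1 ha
    exact wt_pos _ _
  have hrs : ∀ r, 0 ≤ (row w n m c r).sum := fun r =>
    List.sum_nonneg fun a ha => (hrow r a ha).le
  intro a ha
  rcases List.mem_append.1 ha with ha | ha
  · obtain ⟨r, -, h⟩ := List.mem_flatMap.1 ha
    rcases List.mem_cons.1 h with rfl | h
    · exact add_pos_of_pos_of_nonneg (wt_pos _ _) (hrs r)
    · exact hrow r a h
  · rw [List.mem_singleton.1 ha, sum_range_list]
    have : 0 < ∑ j ∈ range m, wt w (n + j) :=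
      sum_pos (fun j _ => wt_pos _ _) ⟨0, mem_range.2 hm⟩
    linarith

theorem items_ne_nil (w n m : ℕ) (c : ℕ → ℕ → Bool) : items w n m c ≠ [] := by
  simp [items]

end Pool.Agent.MP_aff8ab_lc.CL
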