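import Pool.Agent.Work.MP_aff8ab_lc.P.PBin
import Pool.Agent.Work.MP_2f1fa1_lc.PTab
import Pool.Agent.Work.MP_aff8ab_lc.P.PartSg

/-! Every language in NP reduces in polynomial time to the question whether a nonempty list of
positive integers (in binary) has signs with sum zero. -/

namespace Pool.Agent.MP_aff8ab_lc.CL

open PTime

variable {α : Type} [Code α]

/-- the integers which code a propositional formula -/
def partR (φ : CNF) : List ℤ := items (nV φ + 3) (nV φ) (nC φ) (occ φ)

theorem pt_wt {w k : α → ℕ} (hw : PT w) (hk : PT k) : PT (fun a => wt (w a) (k a)) :=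
  PT.zpow2 (PT.mul hw hk)

theorem pt_row {φ : α → CNF} {r : α → ℕ} (hφ : PT φ) (hr : PT r) :
    PT (fun a => row (nV (φ a) + 3) (nV (φ a)) (nC (φ a)) (occ (φ a)) (r a)) := by
  have h1 : PT (fun a => (List.range (nC (φ a))).filter fun j => occ (φ a) (r a) j) :=
    PT.filter (p := fun x : α × ℕ => occ (φ x.1) (r x.1) x.2) (PT.range (PT.nC'.comp hφ))
      (PT.occ' (hφ.comp PT.fst) (hr.comp PT.fst) PT.snd)
  exact PT.map (g := fun x : α × ℕ => wt (nV (φ x.1) + 3) (nV (φ x.1) + x.2)) h1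
    (pt_wt ((PT.nV'.comp (hφ.comp PT.fst)).add (PT.const 3))
      ((PT.nV'.comp (hφ.comp PT.fst)).add PT.snd))

/-- the reduction is computed in polynomial time -/
theorem pt_partR : PT partR := by
  have hr : PT (fun x : CNF × ℕ =>
      row (nV x.1 + 3) (nV x.1) (nC x.1) (occ x.1) x.2) := pt_row PT.fst PT.snd
  have h1 : PT (fun φ : CNF => (List.range (2 * nV φ)).flatMap fun r =>
      (wt (nV φ + 3) (r / 2) + (row (nV φ + 3) (nV φ) (nC φ) (occ φ) r).sum) ::
        row (nV φ + 3) (nV φ) (nC φ) (occ φ) r) :=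
    PT.flatMap (g := fun x : CNF × ℕ =>
      (wt (nV x.1 + 3) (x.2 / 2) + (row (nV x.1 + 3) (nV x.1) (nC x.1) (occ x.1) x.2).sum) ::
        row (nV x.1 + 3) (nV x.1) (nC x.1) (occ x.1) x.2)
      (PT.range ((PT.const 2).mul PT.nV'))
      ((PT.zadd (pt_wt ((PT.nV'.comp PT.fst).add (PT.const 3)) (PT.snd.div (PT.const 2)))
        (PT.zsum hr)).cons hr)
  have h2 : PT (fun φ : CNF => (List.range (nC φ)).map fun j => wt (nV φ + 3) (nV φ + j)) :=
    PT.map (g := fun x : CNF × ℕ => wt (nV x.1 + 3) (nV x.1 + x.2)) (PT.range PT.nC')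
      (pt_wt ((PT.nV'.comp PT.fst).add (PT.const 3)) ((PT.nV'.comp PT.fst).add PT.snd))
  exact h1.append ((PT.zmul (PT.const 2) (PT.zsum h2)).cons (PT.const []))

theorem pow_bound (n : ℕ) : 4 * n + 2 < 2 ^ (n + 3) := by
  have h : n < 2 ^ n := Nat.lt_two_pow_self
  rw [pow_add]
  omega

/-- satisfiability as the question whether a list of integers has signs with sum zero -/
theorem sat_iff_signed (φ : CNF) : Sat φ ↔ Signed (partR φ) 0 := by
  rw [sat_iff_table, partR, signed_items_iff _ _ _ _ (pow_bound (nV φ))]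
  rfl

theorem partR_pos (φ : CNF) : ∀ a ∈ partR φ, 0 < a := items_pos _ _ _ _ (nC_pos φ)

theorem partR_ne_nil (φ : CNF) : partR φ ≠ [] := items_ne_nil _ _ _ _

/-- every language in NP reduces in polynomial time to the problem whether a nonempty list of
positive integers has signs with sum zero -/
theorem part_hard {L : Set (List Bool)} (hL : InNP L) :
    ∃ g : List Bool → List ℤ, PT g ∧ (∀ x, x ∈ L ↔ Signed (g x) 0) ∧
      ∀ x, (∀ a ∈ g x, 0 < a) ∧ g x ≠ [] := by
  obtain ⟨f, hf, hfL⟩ := cookLevin hL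
  exact ⟨fun x => partR (f x), pt_partR.comp hf, fun x => (hfL x).trans (sat_iff_signed _),
    fun x => ⟨partR_pos _, partR_ne_nil _⟩⟩

end Pool.Agent.MP_aff8ab_lc.CL
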